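import Pool.Agent.helper1.VD.SpecA2

/-!
# Row vd:AWPX (MP_07c750_an, project VD, block A2)
-/

set_option autoImplicit false

open scoped ContDiff Topology InnerProductSpace ComplexConjugate ENNReal
open MeasureTheory Filter Set

namespace Pool.Agent.VD

theorem AWPX_proof : AWPX_stmt := by
  intro C0 ζ1 M hζ hC
  have hC0 : (0 : ℝ) < C0 := by linarith
  have hb : (0 : ℝ) < 1 / (4 * C0 ^ 3) := by positivity
  have h1 := (tendsto_rpow_mul_exp_neg_mul_atTop_nhds_zero (M / ζ1) (1 / (4 * C0 ^ 3)) hb).comp (tendsto_rpow_atTop hζ)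
  have h2 : ∀ᶠ R : ℝ in atTop, (R ^ ζ1) ^ (M / ζ1) * Real.exp (-(1 / (4 * C0 ^ 3)) * R ^ ζ1) < 1 / C0 :=
    h1.eventually (gt_mem_nhds (by positivity))
  obtain ⟨R1, hR1⟩ := eventually_atTop.1 h2
  refine ⟨max 1 R1, le_max_left _ _, ?_⟩
  intro R e ρ hR he h4 hρ
  have hR1' : 1 ≤ R := (le_max_left _ _).trans hR
  have hR0 : 0 < R := by linarith
  have h3 := hR1 R ((le_max_right _ _).trans hR)
  have h5 : (R ^ ζ1) ^ (M / ζ1) = R ^ M := by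
    rw [← Real.rpow_mul hR0.le]
    congr 1
    field_simp
  rw [h5] at h3
  have h6 : 1 / (4 * C0 ^ 3) * R ^ ζ1 ≤ R * ρ ^ 2 / (C0 * R ^ (2 * e)) := by
    have h7 : 0 ≤ R ^ (-(1 / 2) + ζ1) / (2 * C0) := by positivity
    have h8 : (R ^ (-(1 / 2) + ζ1) / (2 * C0)) ^ 2 ≤ ρ ^ 2 := pow_le_pow_left₀ h7 hρ 2
    have h9 : (R ^ (-(1 / 2) + ζ1)) ^ 2 = R ^ (-1 + 2 * ζ1) := by
      rw [← Real.rpow_natCast, ← Real.rpow_mul hR0.le]
      congr 1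
      push_cast
      ring
    have h10 : R * (R ^ (-1 + 2 * ζ1) / (4 * C0 ^ 2)) ≤ R * ρ ^ 2 := by
      apply mul_le_mul_of_nonneg_left _ hR0.le
      rw [div_pow, h9] at h8
      calc R ^ (-1 + 2 * ζ1) / (4 * C0 ^ 2) = R ^ (-1 + 2 * ζ1) / (2 * C0) ^ 2 := by ring_nf
        _ ≤ ρ ^ 2 := h8
    rw [le_div_iff₀ (by positivity)]
    refine le_trans ?_ h10
    have h11 : R * R ^ (-1 + 2 * ζ1) = R ^ (2 * ζ1) := by
      nth_rewrite 1 [← Real.rpow_one R]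
      rw [← Real.rpow_add hR0]
      congr 1
      ring
    have h12 : R ^ ζ1 * R ^ (2 * e) ≤ R ^ (2 * ζ1) := by
      rw [← Real.rpow_add hR0]
      exact Real.rpow_le_rpow_of_exponent_le hR1' (by linarith)
    calc 1 / (4 * C0 ^ 3) * R ^ ζ1 * (C0 * R ^ (2 * e)) = (R ^ ζ1 * R ^ (2 * e)) / (4 * C0 ^ 2) := by
          field_simp
      _ ≤ R ^ (2 * ζ1) / (4 * C0 ^ 2) := by gcongr
      _ = R * (R ^ (-1 + 2 * ζ1) / (4 * C0 ^ 2)) := by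
          rw [← h11]
          ring
  have h13 : Real.exp (-(R * ρ ^ 2 / (C0 * R ^ (2 * e)))) ≤ Real.exp (-(1 / (4 * C0 ^ 3)) * R ^ ζ1) := by
    apply Real.exp_le_exp.2
    linarith
  rw [Real.rpow_neg hR0.le]
  have hRM : 0 < R ^ M := Real.rpow_pos_of_pos hR0 _
  rw [lt_div_iff₀ hC0] at h3
  have h14 : R ^ M * (C0 * Real.exp (-(R * ρ ^ 2 / (C0 * R ^ (2 * e))))) ≤ 1 := by
    calc R ^ M * (C0 * Real.exp (-(R * ρ ^ 2 / (C0 * R ^ (2 * e))))) ≤ R ^ M * (C0 * Real.exp (-(1 / (4 * C0 ^ 3)) * R ^ ζ1)) := by gcongr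
      _ = R ^ M * Real.exp (-(1 / (4 * C0 ^ 3)) * R ^ ζ1) * C0 := by ring
      _ ≤ 1 := h3.le
  rw [← one_div, le_div_iff₀ hRM, mul_comm]
  exact h14

end Pool.Agent.VD
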