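import Pool.Agent.helper62.VD.SpecL

/-!
# Project VD, block A5, row ALEP: packets are localised in energy
-/

set_option autoImplicit false

open scoped ContDiff Topology InnerProductSpace ComplexConjugate ENNReal
open MeasureTheory Filter Set

namespace Pool.Agent.VD

noncomputable section

/-- the linear form `v ↦ ⟪ξ, v⟫` -/
def ALEP_L {d : ℕ} (q : P d) : V d →L[ℝ] ℂ := Complex.ofRealCLM.comp (innerSL ℝ q.2)

theorem ALEP_L_apply {d : ℕ} (q : P d) (v : V d) : ALEP_L q v = ((⟪q.2, v⟫_ℝ : ℝ) : ℂ) := rfl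

/-- the phase factor -/
def ALEP_E {d : ℕ} (R : ℝ) (q : P d) (w : V d) : ℂ := Complex.exp (((Complex.I * (R : ℂ)) • ALEP_L q) (w - q.1))

theorem ALEP_Ee {d : ℕ} (R : ℝ) (q : P d) (w : V d) : Complex.exp (((R * ⟪q.2, w - q.1⟫_ℝ : ℝ) : ℂ) * Complex.I) = ALEP_E R q w := by
  unfold ALEP_E
  congr 1
  rw [smul_apply, ALEP_L_apply, smul_eq_mul]
  push_cast
  ring

theorem ALEP_En {d : ℕ} (R : ℝ) (q : P d) (w : V d) : ‖ALEP_E R q w‖ = 1 := by
  rw [← ALEP_Ee, Complex.norm_exp_ofReal_mul_I]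

theorem ALEP_dE {d : ℕ} (R : ℝ) (q : P d) (w : V d) :
    HasFDerivAt (ALEP_E R q) (ALEP_E R q w • ((Complex.I * (R : ℂ)) • ALEP_L q)) w := by
  have h1 : HasFDerivAt (fun w : V d => ((Complex.I * (R : ℂ)) • ALEP_L q) (w - q.1)) ((Complex.I * (R : ℂ)) • ALEP_L q) w := by
    have h2 := ((Complex.I * (R : ℂ)) • ALEP_L q).hasFDerivAt.comp w ((hasFDerivAt_id w).sub_const q.1)
    rw [ContinuousLinearMap.comp_id] at h2
    exact h2
  exact h1.cexp

/-- the derivative without the phase factor -/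
def ALEP_c {d : ℕ} (R : ℝ) (q : P d) (A : V d → ℂ) (w : V d) : V d →L[ℝ] ℂ :=
  fderiv ℝ A (w - q.1) + ((Complex.I * (R : ℂ)) * A (w - q.1)) • ALEP_L q

theorem ALEP_d1 {d : ℕ} (R : ℝ) (q : P d) (A : V d → ℂ) (hA : ContDiff ℝ ∞ A) (w : V d) :
    HasFDerivAt (fun w => ALEP_E R q w * A (w - q.1)) (ALEP_E R q w • ALEP_c R q A w) w := by
  have h1 : HasFDerivAt (fun w : V d => A (w - q.1)) (fderiv ℝ A (w - q.1)) w := by
    have h2 := ((hA.differentiable (by simp)) (w - q.1)).hasFDerivAt.comp w ((hasFDerivAt_id w).sub_const q.1)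
    rw [ContinuousLinearMap.comp_id] at h2
    exact h2
  have h3 := (ALEP_dE R q w).mul h1
  have h4 : ALEP_E R q w • fderiv ℝ A (w - q.1) + A (w - q.1) • (ALEP_E R q w • ((Complex.I * (R : ℂ)) • ALEP_L q)) =
      ALEP_E R q w • ALEP_c R q A w := by
    unfold ALEP_c
    rw [smul_add, smul_smul, smul_smul, smul_smul]
    congr 2
    ring
  rw [h4] at h3
  exact h3

theorem ALEP_d2 {d : ℕ} (R : ℝ) (q : P d) (A : V d → ℂ) (hA : ContDiff ℝ ∞ A) (w : V d) :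
    HasFDerivAt (fun w => ALEP_E R q w • ALEP_c R q A w)
      (ALEP_E R q w • (fderiv ℝ (fderiv ℝ A) (w - q.1) + ((Complex.I * (R : ℂ)) • fderiv ℝ A (w - q.1)).smulRight (ALEP_L q)) +
        (ALEP_E R q w • ((Complex.I * (R : ℂ)) • ALEP_L q)).smulRight (ALEP_c R q A w)) w := by
  have hA' : ContDiff ℝ ∞ (fderiv ℝ A) := hA.fderiv_right (m := ∞) le_rfl
  have h0 : HasFDerivAt (fun w : V d => w - q.1) (ContinuousLinearMap.id ℝ (V d)) w := (hasFDerivAt_id w).sub_const q.1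
  have h1 : HasFDerivAt (fun w : V d => (Complex.I * (R : ℂ)) * A (w - q.1)) ((Complex.I * (R : ℂ)) • fderiv ℝ A (w - q.1)) w := by
    have h2 := ((hA.differentiable (by simp)) (w - q.1)).hasFDerivAt.comp w h0
    rw [ContinuousLinearMap.comp_id] at h2
    exact h2.const_mul (Complex.I * (R : ℂ))
  have h3 : HasFDerivAt (fun w : V d => fderiv ℝ A (w - q.1)) (fderiv ℝ (fderiv ℝ A) (w - q.1)) w := by
    have h2 := ((hA'.differentiable (by simp)) (w - q.1)).hasFDerivAt.comp w h0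
    rw [ContinuousLinearMap.comp_id] at h2
    exact h2
  have h4 : HasFDerivAt (ALEP_c R q A) (fderiv ℝ (fderiv ℝ A) (w - q.1) + ((Complex.I * (R : ℂ)) • fderiv ℝ A (w - q.1)).smulRight (ALEP_L q)) w :=
    h3.add (h1.smul_const (ALEP_L q))
  exact (ALEP_dE R q w).smul h4

/-- the Laplacian in coordinates -/
theorem ALEP_lap {d : ℕ} {G : V d → V d →L[ℝ] V d} (hd : ContDiff ℝ ∞ (dens G)) (hIG : ContDiff ℝ ∞ (IG G)) {f : V d → ℂ} {c : V d → V d →L[ℝ] ℂ}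
    {D : V d →L[ℝ] V d →L[ℝ] ℂ} (w : V d) (h0 : dens G w ≠ 0) (hc : ∀ y, HasFDerivAt f (c y) y) (hD : HasFDerivAt c D w) :
    lap G f w = ∑ i : Fin d, (((((dens G w)⁻¹ * fderiv ℝ (dens G) w (EuclideanSpace.single i 1) : ℝ) : ℂ) * c w (IG G w (EuclideanSpace.single i 1))) +
      (c w (fderiv ℝ (IG G) w (EuclideanSpace.single i 1) (EuclideanSpace.single i 1)) + D (EuclideanSpace.single i 1) (IG G w (EuclideanSpace.single i 1)))) := by
  have hfc : fderiv ℝ f = c := funext fun y => (hc y).fderiv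
  unfold lap
  rw [Finset.mul_sum]
  refine Finset.sum_congr rfl fun i _ => ?_
  have h1 : HasFDerivAt (fun y => ((dens G y : ℝ) : ℂ)) (Complex.ofRealCLM.comp (fderiv ℝ (dens G) w)) w :=
    Complex.ofRealCLM.hasFDerivAt.comp w ((hd.differentiable (by simp)) w).hasFDerivAt
  have h2 : HasFDerivAt (fun y => IG G y (EuclideanSpace.single i 1)) ((fderiv ℝ (IG G) w).flip (EuclideanSpace.single i 1)) w := by
    have h3 := (((hIG.differentiable (by simp)) w).hasFDerivAt).clm_apply (hasFDerivAt_const (EuclideanSpace.single i (1 : ℝ) : V d) w)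
    rw [ContinuousLinearMap.comp_zero, zero_add] at h3
    exact h3
  have h3 := h1.mul (hD.clm_apply h2)
  have h4 : fderiv ℝ (fun y => ((dens G y : ℝ) : ℂ) * fderiv ℝ f y ((G y).inverse (EuclideanSpace.single i 1))) w (EuclideanSpace.single i 1) =
      ((dens G w : ℝ) : ℂ) * (c w (fderiv ℝ (IG G) w (EuclideanSpace.single i 1) (EuclideanSpace.single i 1)) + D (EuclideanSpace.single i 1) (IG G w (EuclideanSpace.single i 1))) +
        c w (IG G w (EuclideanSpace.single i 1)) * ((fderiv ℝ (dens G) w (EuclideanSpace.single i 1) : ℝ) : ℂ) := by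
    rw [hfc]
    have h5 := h3.fderiv
    have h6 : (fun y => ((dens G y : ℝ) : ℂ) * (c y) ((G y).inverse (EuclideanSpace.single i 1))) = (fun y => ((dens G y : ℝ) : ℂ)) * fun y => (c y) (IG G y (EuclideanSpace.single i 1)) := rfl
    rw [h6, h5]
    rfl
  rw [h4]
  have h0' : ((dens G w : ℝ) : ℂ) ≠ 0 := by exact_mod_cast h0
  push_cast
  field_simp
  ring

theorem ALEP_sum {d : ℕ} {T : V d →L[ℝ] V d} (hT : ∀ u v, ⟪T u, v⟫_ℝ = ⟪u, T v⟫_ℝ) (ξ : V d) :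
    ∑ i : Fin d, ⟪ξ, EuclideanSpace.single i 1⟫_ℝ * ⟪ξ, T (EuclideanSpace.single i 1)⟫_ℝ = ⟪T ξ, ξ⟫_ℝ := by
  have h2 := (EuclideanSpace.basisFun (Fin d) ℝ).sum_inner_mul_inner (T ξ) ξ
  rw [← h2]
  refine Finset.sum_congr rfl fun i _ => ?_
  rw [EuclideanSpace.basisFun_apply, hT, real_inner_comm ξ (EuclideanSpace.single i 1)]
  ring

/-- one term without the main part -/
def ALEP_X {d : ℕ} (G : V d → V d →L[ℝ] V d) (R : ℝ) (q : P d) (A : V d → ℂ) (w : V d) (i : Fin d) : ℂ :=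
  (((dens G w)⁻¹ * fderiv ℝ (dens G) w (EuclideanSpace.single i 1) : ℝ) : ℂ) * ALEP_c R q A w (IG G w (EuclideanSpace.single i 1)) +
    ALEP_c R q A w (fderiv ℝ (IG G) w (EuclideanSpace.single i 1) (EuclideanSpace.single i 1)) +
    fderiv ℝ (fderiv ℝ A) (w - q.1) (EuclideanSpace.single i 1) (IG G w (EuclideanSpace.single i 1)) +
    (Complex.I * (R : ℂ)) * fderiv ℝ A (w - q.1) (EuclideanSpace.single i 1) * ALEP_L q (IG G w (EuclideanSpace.single i 1)) +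
    (Complex.I * (R : ℂ)) * ALEP_L q (EuclideanSpace.single i 1) * fderiv ℝ A (w - q.1) (IG G w (EuclideanSpace.single i 1))

theorem ALEP_id {d : ℕ} {G : V d → V d →L[ℝ] V d} (hd : ContDiff ℝ ∞ (dens G)) (hIG : ContDiff ℝ ∞ (IG G)) (hsym : ∀ x u v : V d, ⟪IG G x u, v⟫_ℝ = ⟪u, IG G x v⟫_ℝ)
    (R : ℝ) (q : P d) (A : V d → ℂ) (hA : ContDiff ℝ ∞ A) (w : V d) (h0 : dens G w ≠ 0) :
    lap G (fun w => ALEP_E R q w * A (w - q.1)) w + ((R ^ 2 * (1 + 2 * Ep G q) : ℝ) : ℂ) * (ALEP_E R q w * A (w - q.1)) =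
      ALEP_E R q w * (((R ^ 2 * (⟪IG G q.1 q.2, q.2⟫_ℝ - ⟪IG G w q.2, q.2⟫_ℝ) : ℝ) : ℂ) * A (w - q.1) + ∑ i : Fin d, ALEP_X G R q A w i) := by
  rw [ALEP_lap hd hIG w h0 (fun y => ALEP_d1 R q A hA y) (ALEP_d2 R q A hA w)]
  have hI : Complex.I * Complex.I = -1 := Complex.I_mul_I
  have h1 : ∀ i : Fin d, (((((dens G w)⁻¹ * fderiv ℝ (dens G) w (EuclideanSpace.single i 1) : ℝ) : ℂ) *
        (ALEP_E R q w • ALEP_c R q A w) (IG G w (EuclideanSpace.single i 1))) +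
      ((ALEP_E R q w • ALEP_c R q A w) (fderiv ℝ (IG G) w (EuclideanSpace.single i 1) (EuclideanSpace.single i 1)) +
        (ALEP_E R q w • (fderiv ℝ (fderiv ℝ A) (w - q.1) + ((Complex.I * (R : ℂ)) • fderiv ℝ A (w - q.1)).smulRight (ALEP_L q)) +
        (ALEP_E R q w • ((Complex.I * (R : ℂ)) • ALEP_L q)).smulRight (ALEP_c R q A w)) (EuclideanSpace.single i 1) (IG G w (EuclideanSpace.single i 1)))) =
      ALEP_E R q w * ALEP_X G R q A w i + (-(ALEP_E R q w * ((R ^ 2 : ℝ) : ℂ) * A (w - q.1))) *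
        ((⟪q.2, EuclideanSpace.single i 1⟫_ℝ * ⟪q.2, IG G w (EuclideanSpace.single i 1)⟫_ℝ : ℝ) : ℂ) := by
    intro i
    unfold ALEP_X
    show (((dens G w)⁻¹ * fderiv ℝ (dens G) w (EuclideanSpace.single i 1) : ℝ) : ℂ) *
        (ALEP_E R q w * ALEP_c R q A w (IG G w (EuclideanSpace.single i 1))) +
      (ALEP_E R q w * ALEP_c R q A w (fderiv ℝ (IG G) w (EuclideanSpace.single i 1) (EuclideanSpace.single i 1)) +
        (ALEP_E R q w * (fderiv ℝ (fderiv ℝ A) (w - q.1) (EuclideanSpace.single i 1) (IG G w (EuclideanSpace.single i 1)) +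
          (Complex.I * (R : ℂ)) * fderiv ℝ A (w - q.1) (EuclideanSpace.single i 1) * ALEP_L q (IG G w (EuclideanSpace.single i 1))) +
        (ALEP_E R q w * ((Complex.I * (R : ℂ)) * ALEP_L q (EuclideanSpace.single i 1))) * (fderiv ℝ A (w - q.1) (IG G w (EuclideanSpace.single i 1)) +
          (Complex.I * (R : ℂ)) * A (w - q.1) * ALEP_L q (IG G w (EuclideanSpace.single i 1))))) = _
    rw [ALEP_L_apply, ALEP_L_apply]
    push_cast
    linear_combination (ALEP_E R q w * (R : ℂ) ^ 2 * ((⟪q.2, EuclideanSpace.single i 1⟫_ℝ : ℝ) : ℂ) * A (w - q.1) * ((⟪q.2, IG G w (EuclideanSpace.single i 1)⟫_ℝ : ℝ) : ℂ)) * hI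
  rw [Finset.sum_congr rfl fun i _ => h1 i, Finset.sum_add_distrib, ← Finset.mul_sum, ← Finset.mul_sum]
  have h2 : ∑ i : Fin d, ((⟪q.2, EuclideanSpace.single i 1⟫_ℝ * ⟪q.2, IG G w (EuclideanSpace.single i 1)⟫_ℝ : ℝ) : ℂ) = ((⟪IG G w q.2, q.2⟫_ℝ : ℝ) : ℂ) := by
    rw [← ALEP_sum (hsym w) q.2]
    push_cast
    rfl
  rw [h2]
  have h3 : Ep G q = ⟪IG G q.1 q.2, q.2⟫_ℝ / 2 - 1 / 2 := rfl
  rw [h3]
  push_cast
  ring

theorem ALEP_bd {d : ℕ} {G : V d → V d →L[ℝ] V d} (hd : ContDiff ℝ ∞ (dens G)) (hIG : ContDiff ℝ ∞ (IG G)) (hsym : ∀ x u v : V d, ⟪IG G x u, v⟫_ℝ = ⟪u, IG G x v⟫_ℝ)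
    {C r : ℝ} (hC : 1 ≤ C) (hb : ∀ x : V d, ‖x‖ ≤ r + 1 → 0 < dens G x ∧ (dens G x)⁻¹ ≤ C ∧ ‖fderiv ℝ (dens G) x‖ ≤ C ∧ ‖IG G x‖ ≤ C ∧ ‖fderiv ℝ (IG G) x‖ ≤ C)
    {R η m : ℝ} (hR : 1 ≤ R) (hη : 0 < η) (hη' : η ≤ 1 / 8) (hm : 0 ≤ m) (q : P d) (hq : ‖q.1‖ ≤ r) (hξ : ‖q.2‖ ≤ 2 * C) (A : V d → ℂ) (hA : ContDiff ℝ ∞ A)
    (hA0 : ∀ v, ‖A v‖ ≤ m) (hA1 : ∀ v, ‖fderiv ℝ A v‖ ≤ m * R ^ (1 / 2 + η)) (hA2 : ∀ v, ‖fderiv ℝ (fderiv ℝ A) v‖ ≤ m * (R ^ (1 / 2 + η)) ^ 2)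
    (w : V d) (hw : ‖w - q.1‖ ≤ R ^ (-(1 / 2) + η)) :
    ‖lap G (fun w => ALEP_E R q w * A (w - q.1)) w + ((R ^ 2 * (1 + 2 * Ep G q) : ℝ) : ℂ) * (ALEP_E R q w * A (w - q.1))‖ ≤
      m * R ^ (3 / 2 + 2 * η) * (4 * C ^ 3 + d * (C + 4 * C ^ 2 + C ^ 3 * (1 + 2 * C) + C * (1 + 2 * C))) := by
  have hR0 : 0 < R := by linarith
  have hC0 : 0 < C := by linarith
  obtain ⟨Z, hZ⟩ : ∃ Z : ℝ, Z = R ^ (3 / 2 + 2 * η) := ⟨_, rfl⟩
  obtain ⟨s, hs⟩ : ∃ s : ℝ, s = R ^ (1 / 2 + η) := ⟨_, rfl⟩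
  obtain ⟨ρ, hρ⟩ : ∃ ρ : ℝ, ρ = R ^ (-(1 / 2) + η) := ⟨_, rfl⟩
  have hZ0 : 0 < Z := by rw [hZ]; exact Real.rpow_pos_of_pos hR0 _
  have hs0 : 0 < s := by rw [hs]; exact Real.rpow_pos_of_pos hR0 _
  have hρ0 : 0 < ρ := by rw [hρ]; exact Real.rpow_pos_of_pos hR0 _
  have hρ1 : ρ ≤ 1 := by rw [hρ]; exact Real.rpow_le_one_of_one_le_of_nonpos hR (by linarith)
  have z1 : R ^ 2 * ρ ≤ Z := by
    rw [hρ, hZ, ← Real.rpow_natCast, ← Real.rpow_add hR0]
    apply Real.rpow_le_rpow_of_exponent_le hR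
    push_cast
    linarith
  have z2 : s ^ 2 ≤ Z := by
    rw [hs, hZ, ← Real.rpow_natCast, ← Real.rpow_mul hR0.le]
    apply Real.rpow_le_rpow_of_exponent_le hR
    push_cast
    linarith
  have z3 : R * s ≤ Z := by
    have h1 : R * s = R ^ (1 + (1 / 2 + η)) := by rw [hs, Real.rpow_add hR0 1, Real.rpow_one]
    rw [h1, hZ]
    apply Real.rpow_le_rpow_of_exponent_le hR
    linarith
  have z4 : s ≤ Z := by
    rw [hs, hZ]
    apply Real.rpow_le_rpow_of_exponent_le hR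
    linarith
  have z5 : R ≤ Z := by
    rw [hZ]
    nth_rw 1 [← Real.rpow_one R]
    apply Real.rpow_le_rpow_of_exponent_le hR
    linarith
  rw [← hs] at hA1 hA2
  rw [← hρ] at hw
  rw [← hZ]
  have hwr : ‖w‖ ≤ r + 1 := by
    calc ‖w‖ = ‖q.1 + (w - q.1)‖ := by rw [add_sub_cancel]
      _ ≤ ‖q.1‖ + ‖w - q.1‖ := norm_add_le _ _
      _ ≤ r + 1 := by linarith
  obtain ⟨b1, b2, b3, b4, b5⟩ := hb w hwr
  rw [ALEP_id hd hIG hsym R q A hA w b1.ne', norm_mul, ALEP_En, one_mul]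
  have hone : ∀ i : Fin d, ‖(EuclideanSpace.single i (1 : ℝ) : V d)‖ = 1 := fun i => by simp
  have hIe : ∀ i : Fin d, ‖IG G w (EuclideanSpace.single i 1)‖ ≤ C := by
    intro i
    refine ((IG G w).le_opNorm _).trans ?_
    rw [hone, mul_one]
    exact b4
  have hL : ∀ v : V d, ‖ALEP_L q v‖ ≤ 2 * C * ‖v‖ := by
    intro v
    rw [ALEP_L_apply, Complex.norm_real]
    refine (norm_inner_le_norm _ _).trans ?_
    exact mul_le_mul_of_nonneg_right hξ (norm_nonneg _)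
  have hc : ∀ v : V d, ‖ALEP_c R q A w v‖ ≤ m * Z * (1 + 2 * C) * ‖v‖ := by
    intro v
    show ‖fderiv ℝ A (w - q.1) v + (Complex.I * (R : ℂ)) * A (w - q.1) * ALEP_L q v‖ ≤ _
    refine (norm_add_le _ _).trans ?_
    have h1 : ‖fderiv ℝ A (w - q.1) v‖ ≤ m * s * ‖v‖ := ((fderiv ℝ A (w - q.1)).le_opNorm v).trans (mul_le_mul_of_nonneg_right (hA1 _) (norm_nonneg _))
    have h2 : ‖(Complex.I * (R : ℂ)) * A (w - q.1) * ALEP_L q v‖ ≤ R * m * (2 * C * ‖v‖) := by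
      rw [norm_mul, norm_mul, norm_mul, Complex.norm_I, one_mul, Complex.norm_real, Real.norm_of_nonneg hR0.le]
      exact mul_le_mul (mul_le_mul_of_nonneg_left (hA0 _) hR0.le) (hL v) (norm_nonneg _) (by positivity)
    have h3 : m * s * ‖v‖ ≤ m * Z * ‖v‖ := mul_le_mul_of_nonneg_right (mul_le_mul_of_nonneg_left z4 hm) (norm_nonneg _)
    have h4 : R * (m * (2 * C * ‖v‖)) ≤ Z * (m * (2 * C * ‖v‖)) := mul_le_mul_of_nonneg_right z5 (by positivity)
    nlinarith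
  have hX : ∀ i : Fin d, ‖ALEP_X G R q A w i‖ ≤ m * Z * (C + 4 * C ^ 2 + C ^ 3 * (1 + 2 * C) + C * (1 + 2 * C)) := by
    intro i
    have t1 : ‖(((dens G w)⁻¹ * fderiv ℝ (dens G) w (EuclideanSpace.single i 1) : ℝ) : ℂ) * ALEP_c R q A w (IG G w (EuclideanSpace.single i 1))‖ ≤
        C * C * (m * Z * (1 + 2 * C) * C) := by
      rw [norm_mul, Complex.norm_real, norm_mul]
      have e1 : ‖(dens G w)⁻¹‖ ≤ C := by
        rw [Real.norm_of_nonneg (inv_nonneg.2 b1.le)]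
        exact b2
      have e2 : ‖fderiv ℝ (dens G) w (EuclideanSpace.single i 1)‖ ≤ C := by
        refine ((fderiv ℝ (dens G) w).le_opNorm _).trans ?_
        rw [hone, mul_one]
        exact b3
      have e3 : ‖ALEP_c R q A w (IG G w (EuclideanSpace.single i 1))‖ ≤ m * Z * (1 + 2 * C) * C :=
        (hc _).trans (mul_le_mul_of_nonneg_left (hIe i) (by positivity))
      exact mul_le_mul (mul_le_mul e1 e2 (norm_nonneg _) hC0.le) e3 (norm_nonneg _) (by positivity)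
    have t2 : ‖ALEP_c R q A w (fderiv ℝ (IG G) w (EuclideanSpace.single i 1) (EuclideanSpace.single i 1))‖ ≤ m * Z * (1 + 2 * C) * C := by
      refine (hc _).trans (mul_le_mul_of_nonneg_left ?_ (by positivity))
      refine ((fderiv ℝ (IG G) w (EuclideanSpace.single i 1)).le_opNorm _).trans ?_
      rw [hone, mul_one]
      refine ((fderiv ℝ (IG G) w).le_opNorm _).trans ?_
      rw [hone, mul_one]
      exact b5
    have t3 : ‖fderiv ℝ (fderiv ℝ A) (w - q.1) (EuclideanSpace.single i 1) (IG G w (EuclideanSpace.single i 1))‖ ≤ m * Z * C := by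
      refine ((fderiv ℝ (fderiv ℝ A) (w - q.1) (EuclideanSpace.single i 1)).le_opNorm _).trans ?_
      refine mul_le_mul ?_ (hIe i) (norm_nonneg _) (by positivity)
      refine ((fderiv ℝ (fderiv ℝ A) (w - q.1)).le_opNorm _).trans ?_
      rw [hone, mul_one]
      exact (hA2 _).trans (mul_le_mul_of_nonneg_left z2 hm)
    have t4 : ‖(Complex.I * (R : ℂ)) * fderiv ℝ A (w - q.1) (EuclideanSpace.single i 1) * ALEP_L q (IG G w (EuclideanSpace.single i 1))‖ ≤ m * Z * (2 * C ^ 2) := by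
      rw [norm_mul, norm_mul, norm_mul, Complex.norm_I, one_mul, Complex.norm_real, Real.norm_of_nonneg hR0.le]
      have e1 : ‖fderiv ℝ A (w - q.1) (EuclideanSpace.single i 1)‖ ≤ m * s := by
        refine ((fderiv ℝ A (w - q.1)).le_opNorm _).trans ?_
        rw [hone, mul_one]
        exact hA1 _
      have e2 : ‖ALEP_L q (IG G w (EuclideanSpace.single i 1))‖ ≤ 2 * C * C := (hL _).trans (mul_le_mul_of_nonneg_left (hIe i) (by positivity))
      refine (mul_le_mul (mul_le_mul_of_nonneg_left e1 hR0.le) e2 (norm_nonneg _) (by positivity)).trans ?_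
      have e3 : R * s * (m * (2 * C * C)) ≤ Z * (m * (2 * C * C)) := mul_le_mul_of_nonneg_right z3 (by positivity)
      nlinarith
    have t5 : ‖(Complex.I * (R : ℂ)) * ALEP_L q (EuclideanSpace.single i 1) * fderiv ℝ A (w - q.1) (IG G w (EuclideanSpace.single i 1))‖ ≤ m * Z * (2 * C ^ 2) := by
      rw [norm_mul, norm_mul, norm_mul, Complex.norm_I, one_mul, Complex.norm_real, Real.norm_of_nonneg hR0.le]
      have e1 : ‖ALEP_L q (EuclideanSpace.single i 1)‖ ≤ 2 * C := by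
        refine (hL _).trans ?_
        rw [hone, mul_one]
      have e2 : ‖fderiv ℝ A (w - q.1) (IG G w (EuclideanSpace.single i 1))‖ ≤ m * s * C := by
        refine ((fderiv ℝ A (w - q.1)).le_opNorm _).trans ?_
        exact mul_le_mul (hA1 _) (hIe i) (norm_nonneg _) (by positivity)
      refine (mul_le_mul (mul_le_mul_of_nonneg_left e1 hR0.le) e2 (norm_nonneg _) (by positivity)).trans ?_
      have e3 : R * s * (m * (2 * C * C)) ≤ Z * (m * (2 * C * C)) := mul_le_mul_of_nonneg_right z3 (by positivity)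
      nlinarith
    unfold ALEP_X
    refine (norm_add_le_of_le (norm_add_le_of_le (norm_add_le_of_le (norm_add_le_of_le t1 t2) t3) t4) t5).trans (le_of_eq ?_)
    ring
  have hmv : ‖IG G q.1 - IG G w‖ ≤ C * ρ := by
    have h1 := (convex_closedBall (0 : V d) (r + 1)).norm_image_sub_le_of_norm_fderiv_le (f := IG G) (𝕜 := ℝ) (C := C)
      (fun x _ => (hIG.differentiable (by simp)) x) (fun x hx => (hb x (by rwa [mem_closedBall_zero_iff] at hx)).2.2.2.2)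
      (mem_closedBall_zero_iff.2 hwr) (mem_closedBall_zero_iff.2 (show ‖q.1‖ ≤ r + 1 by linarith))
    refine h1.trans (mul_le_mul_of_nonneg_left ?_ hC0.le)
    rw [norm_sub_rev]
    exact hw
  have hF : ‖((R ^ 2 * (⟪IG G q.1 q.2, q.2⟫_ℝ - ⟪IG G w q.2, q.2⟫_ℝ) : ℝ) : ℂ) * A (w - q.1)‖ ≤ m * Z * (4 * C ^ 3) := by
    rw [norm_mul, Complex.norm_real, norm_mul, Real.norm_of_nonneg (by positivity : (0 : ℝ) ≤ R ^ 2), ← inner_sub_left]
    have h1 : ‖⟪IG G q.1 q.2 - IG G w q.2, q.2⟫_ℝ‖ ≤ C * ρ * (2 * C) * (2 * C) := by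
      refine (norm_inner_le_norm _ _).trans ?_
      have h2 : IG G q.1 q.2 - IG G w q.2 = (IG G q.1 - IG G w) q.2 := rfl
      rw [h2]
      refine mul_le_mul (((IG G q.1 - IG G w).le_opNorm _).trans ?_) hξ (norm_nonneg _) (by positivity)
      exact mul_le_mul hmv hξ (norm_nonneg _) (by positivity)
    refine (mul_le_mul (mul_le_mul_of_nonneg_left h1 (by positivity)) (hA0 _) (norm_nonneg _) (by positivity)).trans ?_
    have h3 : R ^ 2 * ρ * (m * (4 * C ^ 3)) ≤ Z * (m * (4 * C ^ 3)) := mul_le_mul_of_nonneg_right z1 (by positivity)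
    nlinarith
  have hsum : ‖∑ i : Fin d, ALEP_X G R q A w i‖ ≤ d * (m * Z * (C + 4 * C ^ 2 + C ^ 3 * (1 + 2 * C) + C * (1 + 2 * C))) := by
    refine (norm_sum_le _ _).trans ((Finset.sum_le_sum fun i _ => hX i).trans ?_)
    rw [Finset.sum_const, Finset.card_univ, Fintype.card_fin, nsmul_eq_mul]
  refine (norm_add_le_of_le hF hsum).trans (le_of_eq ?_)
  ring

theorem ALEP_zero {d : ℕ} {G : V d → V d →L[ℝ] V d} {f : V d → ℂ} (w : V d) (h : f =ᶠ[𝓝 w] fun _ => 0) : lap G f w = 0 := by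
  have h1 : fderiv ℝ f =ᶠ[𝓝 w] fun _ => 0 := by
    refine h.fderiv.trans (Filter.Eventually.of_forall fun y => ?_)
    exact (hasFDerivAt_const (0 : ℂ) y).fderiv
  unfold lap
  rw [Finset.sum_eq_zero, mul_zero]
  intro i _
  have h2 : (fun y => ((dens G y : ℝ) : ℂ) * fderiv ℝ f y ((G y).inverse (EuclideanSpace.single i 1))) =ᶠ[𝓝 w] fun _ => 0 := by
    filter_upwards [h1] with y hy
    rw [hy]
    simp
  rw [h2.fderiv_eq, (hasFDerivAt_const (0 : ℂ) w).fderiv]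
  rfl

theorem ALEP_proof (h1 : AMVI_stmt) (h2 : AHLD_stmt) : ALEP_stmt := by
  intro d Γ _ _ K k B r
  obtain ⟨C0, hC0, hAH⟩ := h2 d Γ K k B (r + 1) 1
  have hC00 : 0 < C0 := by linarith
  obtain ⟨C1, hC1⟩ : ∃ C1 : ℝ, C1 = 4 * C0 ^ 3 + d * (C0 + 4 * C0 ^ 2 + C0 ^ 3 * (1 + 2 * C0) + C0 * (1 + 2 * C0)) := ⟨_, rfl⟩
  have hC10 : 0 ≤ C1 := by rw [hC1]; positivity
  obtain ⟨v0, hv0⟩ : ∃ v0 : ℝ, v0 = (volume (Metric.ball (0 : V d) 1)).toReal := ⟨_, rfl⟩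
  have hv00 : 0 ≤ v0 := by rw [hv0]; exact ENNReal.toReal_nonneg
  refine ⟨1 + C0 * C1 ^ 2 * v0, le_add_of_nonneg_right (by positivity), ?_⟩
  intro G hK hG η m R q f γ hq hEp hR hη hη' hm hPk
  obtain ⟨A, hAs, hAsupp, hAb, hf⟩ := hPk
  obtain ⟨-, hd, hdp, -, -, hmp, -, hint, hlap⟩ := h1 d Γ K k B G hK hG
  obtain ⟨-, -, hIG, hsym, hbd⟩ := hAH G hK hG
  have hR0 : 0 < R := by linarith
  have hb : ∀ x : V d, ‖x‖ ≤ r + 1 → 0 < dens G x ∧ (dens G x)⁻¹ ≤ C0 ∧ ‖fderiv ℝ (dens G) x‖ ≤ C0 ∧ ‖IG G x‖ ≤ C0 ∧ ‖fderiv ℝ (IG G) x‖ ≤ C0 := by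
    intro x hx
    obtain ⟨e1, e2, -⟩ := hbd x hx
    refine ⟨hdp x, ?_, ?_, ?_, ?_⟩
    · exact inv_le_of_inv_le₀ hC00 e1
    · have := (e2 1 le_rfl).1
      rwa [norm_iteratedFDeriv_one] at this
    · have := (e2 0 (by norm_num)).2.2.2
      rwa [norm_iteratedFDeriv_zero] at this
    · have := (e2 1 le_rfl).2.2.2
      rwa [norm_iteratedFDeriv_one] at this
  have hdu : ∀ x : V d, ‖x‖ ≤ r + 1 → dens G x ≤ C0 := by
    intro x hx
    have := ((hbd x hx).2.1 0 (by norm_num)).1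
    rw [norm_iteratedFDeriv_zero] at this
    exact (le_abs_self _).trans this
  have hξ : ‖q.2‖ ≤ 2 * C0 := by
    have e1 := ((hbd q.1 (by linarith)).2.2 q.2).1
    have e2 : ⟪IG G q.1 q.2, q.2⟫_ℝ ≤ 2 := by
      have e3 : Ep G q = ⟪IG G q.1 q.2, q.2⟫_ℝ / 2 - 1 / 2 := rfl
      have e4 := (abs_le.1 hEp).2
      rw [e3] at e4
      linarith
    by_contra hcon
    push Not at hcon
    nlinarith [norm_nonneg q.2]
  have hA0 : ∀ v, ‖A v‖ ≤ m := by
    intro v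
    have := hAb 0 (by norm_num) v
    rwa [norm_iteratedFDeriv_zero, pow_zero, mul_one] at this
  have hA1 : ∀ v, ‖fderiv ℝ A v‖ ≤ m * R ^ (1 / 2 + η) := by
    intro v
    have := hAb 1 (by norm_num) v
    rwa [norm_iteratedFDeriv_one, pow_one] at this
  have hA2 : ∀ v, ‖fderiv ℝ (fderiv ℝ A) v‖ ≤ m * (R ^ (1 / 2 + η)) ^ 2 := by
    intro v
    have := hAb 2 le_rfl v
    rw [← norm_iteratedFDeriv_fderiv, norm_iteratedFDeriv_one] at this
    exact this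
  have hff : f = fun w => ALEP_E R q w * A (w - q.1) := funext fun w => by rw [hf w, ALEP_Ee]
  have hfs : ContDiff ℝ ∞ f := by
    rw [hff]
    have e1 : ContDiff ℝ ∞ (ALEP_E R q) := by
      unfold ALEP_E
      exact (((Complex.I * (R : ℂ)) • ALEP_L q).contDiff.comp (contDiff_id.sub contDiff_const)).cexp
    exact e1.mul (hAs.comp (contDiff_id.sub contDiff_const))
  obtain ⟨g, hg⟩ : ∃ g : V d → ℂ, g = fun w => lap G f w + ((R ^ 2 * (1 + 2 * Ep G q) : ℝ) : ℂ) * f w := ⟨_, rfl⟩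
  obtain ⟨Z, hZ⟩ : ∃ Z : ℝ, Z = R ^ (3 / 2 + 2 * η) := ⟨_, rfl⟩
  obtain ⟨ρ, hρ⟩ : ∃ ρ : ℝ, ρ = R ^ (-(1 / 2) + η) := ⟨_, rfl⟩
  have hZ0 : 0 < Z := by rw [hZ]; exact Real.rpow_pos_of_pos hR0 _
  have hρ0 : 0 < ρ := by rw [hρ]; exact Real.rpow_pos_of_pos hR0 _
  have hρ1 : ρ ≤ 1 := by rw [hρ]; exact Real.rpow_le_one_of_one_le_of_nonpos hR (by linarith)
  -- the pointwise bound
  have hg1 : ∀ w, ‖w - q.1‖ ≤ ρ → ‖g w‖ ≤ m * Z * C1 := by
    intro w hw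
    rw [hg, hff, hZ, hC1]
    exact ALEP_bd hd hIG hsym hC0 hb hR hη hη' hm q hq hξ A hAs hA0 hA1 hA2 w (by rw [← hρ]; exact hw)
  have hg2 : ∀ w, ρ < ‖w - q.1‖ → g w = 0 := by
    intro w hw
    have e1 : ∀ᶠ y in 𝓝 w, f y = 0 := by
      have e2 : Continuous fun y : V d => ‖y - q.1‖ := (continuous_id.sub continuous_const).norm
      filter_upwards [e2.continuousAt.eventually (lt_mem_nhds hw)] with y hy
      rw [hff]
      dsimp only
      have e3 : A (y - q.1) = 0 := by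
        by_contra h
        have := hAsupp _ h
        rw [← hρ] at this
        linarith
      rw [e3, mul_zero]
    rw [hg]
    dsimp only
    rw [ALEP_zero w e1, e1.self_of_nhds, mul_zero, add_zero]
  have hcont : Continuous (fun x : V d => γ⁻¹ • x) := (hK.smooth γ⁻¹).continuous
  have hcont' : Continuous (fun x : V d => γ • x) := (hK.smooth γ).continuous
  have hemb : MeasurableEmbedding (fun x : V d => γ⁻¹ • x) := by
    let e : V d ≃ₜ V d :=
      { toFun := fun x => γ⁻¹ • x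
        invFun := fun x => γ • x
        left_inv := fun x => smul_inv_smul γ x
        right_inv := fun x => inv_smul_smul γ x
        continuous_toFun := hcont
        continuous_invFun := hcont' }
    exact e.measurableEmbedding
  have hstep : nn G univ (fun z => lap G (fun z => f (γ⁻¹ • z)) z + ((R ^ 2 * (1 + 2 * Ep G q) : ℝ) : ℂ) * f (γ⁻¹ • z)) = ∫ x, dens G x * ‖g x‖ ^ 2 := by
    unfold nn
    rw [Measure.restrict_univ]
    have e1 : ∀ z, ‖lap G (fun z => f (γ⁻¹ • z)) z + ((R ^ 2 * (1 + 2 * Ep G q) : ℝ) : ℂ) * f (γ⁻¹ • z)‖ ^ 2 = (fun x => ‖g x‖ ^ 2) (γ⁻¹ • z) := by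
      intro z
      rw [hlap f γ⁻¹ z (contDiff_infty.1 hfs 2), hg]
    rw [integral_congr_ae (Filter.Eventually.of_forall e1)]
    rw [(hmp γ⁻¹).integral_comp hemb (fun x => ‖g x‖ ^ 2), hint]
    rfl
  rw [hstep]
  have hle : ∀ x, dens G x * ‖g x‖ ^ 2 ≤ (Metric.closedBall q.1 ρ).indicator (fun _ => C0 * (m * Z * C1) ^ 2) x := by
    intro x
    by_cases hx : x ∈ Metric.closedBall q.1 ρ
    · rw [Set.indicator_of_mem hx]
      have hx' : ‖x - q.1‖ ≤ ρ := by rwa [Metric.mem_closedBall, dist_eq_norm] at hx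
      have hxr : ‖x‖ ≤ r + 1 := by
        calc ‖x‖ = ‖q.1 + (x - q.1)‖ := by rw [add_sub_cancel]
          _ ≤ ‖q.1‖ + ‖x - q.1‖ := norm_add_le _ _
          _ ≤ r + 1 := by linarith
      exact mul_le_mul (hdu x hxr) (pow_le_pow_left₀ (norm_nonneg _) (hg1 x hx') 2) (by positivity) hC00.le
    · rw [Set.indicator_of_notMem hx]
      have hx' : ρ < ‖x - q.1‖ := by rwa [Metric.mem_closedBall, dist_eq_norm, not_le] at hx
      rw [hg2 x hx', norm_zero]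
      simp
  have hfin : volume (Metric.closedBall q.1 ρ) ≠ ⊤ := measure_closedBall_lt_top.ne
  have hI : Integrable ((Metric.closedBall q.1 ρ).indicator (fun _ => C0 * (m * Z * C1) ^ 2)) (volume : Measure (V d)) := by
    rw [integrable_indicator_iff Metric.isClosed_closedBall.measurableSet]
    exact integrableOn_const hfin
  have hvol : (volume (Metric.closedBall q.1 ρ)).toReal = ρ ^ d * v0 := by
    rw [Measure.addHaar_closedBall _ _ hρ0.le, finrank_euclideanSpace_fin, ENNReal.toReal_mul, ENNReal.toReal_ofReal (by positivity), hv0]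
  have h5 := integral_mono_of_nonneg (Filter.Eventually.of_forall fun x => mul_nonneg (hdp x).le (sq_nonneg _)) hI (Filter.Eventually.of_forall hle)
  refine h5.trans ?_
  rw [integral_indicator_const _ Metric.isClosed_closedBall.measurableSet, smul_eq_mul, Measure.real, hvol]
  have hpow : Z ^ 2 * ρ ^ d = R ^ (3 - (d : ℝ) / 2 + (d + 4) * η) := by
    rw [hZ, hρ, ← Real.rpow_natCast, ← Real.rpow_natCast, ← Real.rpow_mul hR0.le, ← Real.rpow_mul hR0.le, ← Real.rpow_add hR0]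
    congr 1
    push_cast
    ring
  have h6 : ρ ^ d * v0 * (C0 * (m * Z * C1) ^ 2) = C0 * C1 ^ 2 * v0 * (m ^ 2 * (Z ^ 2 * ρ ^ d)) := by ring
  rw [h6, hpow]
  have h7 : 0 ≤ m ^ 2 * R ^ (3 - (d : ℝ) / 2 + (d + 4) * η) := mul_nonneg (sq_nonneg _) (Real.rpow_nonneg hR0.le _)
  nlinarith

end

end Pool.Agent.VD
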