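import Pool.Agent.helper80.VD.SpecF

/-!
# Project VD, row FDB: uniform bounds of the derivatives of a flow
-/

set_option autoImplicit false

open scoped ContDiff Topology InnerProductSpace
open MeasureTheory Filter Set

namespace Pool.Agent.VD

noncomputable section

theorem FDB_gr {F : Type} [NormedAddCommGroup F] [NormedSpace ℝ F] {f : F → F} {Φ : ℝ → F → F} (hΦ : CRO.IsC1Flow f Φ)
    (x : F) (T b : ℝ) (hb : ∀ t, |t| ≤ T → ‖fderiv ℝ f (Φ t x)‖ ≤ b) (t : ℝ) (ht : |t| ≤ T) :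
    ‖fderiv ℝ (Φ t) x‖ ≤ Real.exp (b * T) := by
  have hb0 : 0 ≤ b := (norm_nonneg _).trans (hb t ht)
  have h0 : ‖fderiv ℝ (Φ 0) x‖ ≤ 1 := by
    have h1 : Φ 0 = id := funext hΦ.zero
    rw [h1, fderiv_id]
    exact ContinuousLinearMap.norm_id_le
  rcases le_total 0 t with h | h
  · have h2 := norm_le_gronwallBound_of_norm_deriv_right_le (f := fun s => fderiv ℝ (Φ s) x)
      (f' := fun s => (fderiv ℝ f (Φ s x)).comp (fderiv ℝ (Φ s) x)) (δ := 1) (K := b) (ε := 0) (a := 0) (b := t)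
      (fun s _ => (hΦ.var x s).continuousAt.continuousWithinAt) (fun s _ => (hΦ.var x s).hasDerivWithinAt) h0
      (fun s hs => by
        rw [add_zero]
        have h3 : |s| ≤ T := by
          rw [abs_of_nonneg hs.1]
          rw [abs_of_nonneg h] at ht
          linarith [hs.2]
        exact (ContinuousLinearMap.opNorm_comp_le _ _).trans (mul_le_mul_of_nonneg_right (hb s h3) (norm_nonneg _))) t ⟨h, le_rfl⟩
    rw [gronwallBound_ε0, one_mul, sub_zero] at h2
    exact h2.trans (Real.exp_le_exp.2 (mul_le_mul_of_nonneg_left ((le_abs_self t).trans ht) hb0))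
  · have hd : ∀ s : ℝ, HasDerivAt (fun s => fderiv ℝ (Φ (-s)) x) (-((fderiv ℝ f (Φ (-s) x)).comp (fderiv ℝ (Φ (-s)) x))) s := by
      intro s
      have h3 := (hΦ.var x (-s)).scomp s (hasDerivAt_neg s)
      rw [neg_one_smul] at h3
      exact h3
    have h2 := norm_le_gronwallBound_of_norm_deriv_right_le (f := fun s => fderiv ℝ (Φ (-s)) x)
      (f' := fun s => -((fderiv ℝ f (Φ (-s) x)).comp (fderiv ℝ (Φ (-s)) x))) (δ := 1) (K := b) (ε := 0) (a := 0) (b := -t)
      (fun s _ => (hd s).continuousAt.continuousWithinAt) (fun s _ => (hd s).hasDerivWithinAt) (by rw [neg_zero]; exact h0)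
      (fun s hs => by
        rw [add_zero, norm_neg]
        have h3 : |(-s)| ≤ T := by
          rw [abs_neg, abs_of_nonneg hs.1]
          rw [abs_of_nonpos h] at ht
          linarith [hs.2]
        exact (ContinuousLinearMap.opNorm_comp_le _ _).trans (mul_le_mul_of_nonneg_right (hb (-s) h3) (norm_nonneg _))) (-t) ⟨by linarith, le_rfl⟩
    rw [gronwallBound_ε0, one_mul, sub_zero, neg_neg] at h2
    exact h2.trans (Real.exp_le_exp.2 (mul_le_mul_of_nonneg_left ((neg_le_abs t).trans ht) hb0))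

/-- the prolonged field -/
def FDB_f {F : Type} [NormedAddCommGroup F] [NormedSpace ℝ F] (f : F → F) (q : F × (F →L[ℝ] F)) : F × (F →L[ℝ] F) :=
  (f q.1, (fderiv ℝ f q.1).comp q.2)

/-- the prolonged flow -/
def FDB_F {F : Type} [NormedAddCommGroup F] [NormedSpace ℝ F] (Φ : ℝ → F → F) (t : ℝ) (q : F × (F →L[ℝ] F)) : F × (F →L[ℝ] F) :=
  (Φ t q.1, (fderiv ℝ (Φ t) q.1).comp q.2)

theorem FDB_fs {F : Type} [NormedAddCommGroup F] [NormedSpace ℝ F] {f : F → F} (hf : ContDiff ℝ ∞ f) : ContDiff ℝ ∞ (FDB_f f) := by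
  unfold FDB_f
  exact (hf.comp contDiff_fst).prodMk (((hf.fderiv_right (m := ∞) le_rfl).comp contDiff_fst).clm_comp contDiff_snd)

theorem FDB_Fs {F : Type} [NormedAddCommGroup F] [NormedSpace ℝ F] {Φ : ℝ → F → F} (hΦ : ContDiff ℝ ∞ (fun q : ℝ × F => Φ q.1 q.2)) :
    ContDiff ℝ ∞ (fun q : ℝ × (F × (F →L[ℝ] F)) => FDB_F Φ q.1 q.2) := by
  unfold FDB_F
  have h1 : ContDiff ℝ ∞ (fun q : ℝ × (F × (F →L[ℝ] F)) => Φ q.1 q.2.1) :=
    hΦ.comp (contDiff_fst.prodMk (contDiff_fst.comp contDiff_snd))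
  have h2 : ContDiff ℝ ∞ (fun q : ℝ × (F × (F →L[ℝ] F)) => fderiv ℝ (Φ q.1) q.2.1) := by
    have h3 : ContDiff ℝ ∞ (Function.uncurry fun (q : ℝ × (F × (F →L[ℝ] F))) (y : F) => Φ q.1 y) :=
      hΦ.comp ((contDiff_fst.comp contDiff_fst).prodMk contDiff_snd)
    exact h3.fderiv (contDiff_fst.comp contDiff_snd) le_rfl
  exact h1.prodMk (h2.clm_comp (contDiff_snd.comp contDiff_snd))

theorem FDB_flow (hFC1 : FC1_stmt) {F : Type} [NormedAddCommGroup F] [NormedSpace ℝ F] [FiniteDimensional ℝ F] {f : F → F} {Φ : ℝ → F → F}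
    (hf : ContDiff ℝ ∞ f) (hC : CRO.IsC1Flow f Φ) (hΦ : ContDiff ℝ ∞ (fun q : ℝ × F => Φ q.1 q.2)) : CRO.IsC1Flow (FDB_f f) (FDB_F Φ) := by
  refine (hFC1 (F × (F →L[ℝ] F)) (FDB_f f) (FDB_F Φ) (FDB_fs hf) (FDB_Fs hΦ) ?_ ?_ ?_).1
  · intro q
    have h1 : Φ 0 = id := funext hC.zero
    unfold FDB_F
    rw [h1, fderiv_id, ContinuousLinearMap.id_comp]
    rfl
  · intro s t q
    have h1 : Φ (s + t) = Φ s ∘ Φ t := funext fun y => hC.add s t y
    unfold FDB_F
    rw [h1, fderiv_comp _ (hC.diff s _) (hC.diff t _)]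
    rfl
  · intro t q
    have h1 := (hC.ode q.1 t).prodMk ((hC.var q.1 t).clm_comp (hasDerivAt_const t q.2))
    rw [ContinuousLinearMap.comp_zero, add_zero] at h1
    exact h1

theorem FDB_fst {F G H : Type} [NormedAddCommGroup F] [NormedSpace ℝ F] [NormedAddCommGroup G] [NormedSpace ℝ G] [NormedAddCommGroup H]
    [NormedSpace ℝ H] {g : F → H} (hg : ContDiff ℝ ∞ g) (m : ℕ) (q : F × G) :
    ‖iteratedFDeriv ℝ m (fun q : F × G => g q.1) q‖ ≤ ‖iteratedFDeriv ℝ m g q.1‖ := by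
  have h1 := (ContinuousLinearMap.fst ℝ F G).iteratedFDeriv_comp_right hg q (i := m) (by exact_mod_cast le_top)
  have h2 : (fun q : F × G => g q.1) = g ∘ (ContinuousLinearMap.fst ℝ F G) := rfl
  rw [h2, h1]
  refine (ContinuousMultilinearMap.norm_compContinuousLinearMap_le _ _).trans ?_
  refine mul_le_of_le_one_right (norm_nonneg _) ?_
  exact Finset.prod_le_one (fun _ _ => norm_nonneg _) fun _ _ => ContinuousLinearMap.norm_fst_le ..

theorem FDB_snd {F G : Type} [NormedAddCommGroup F] [NormedSpace ℝ F] [NormedAddCommGroup G] [NormedSpace ℝ G]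
    (m : ℕ) (q : F × G) (E : ℝ) (hE : 1 ≤ E) (hq : ‖q.2‖ ≤ E) :
    ‖iteratedFDeriv ℝ m (fun q : F × G => q.2) q‖ ≤ E := by
  cases m with
  | zero =>
    rw [norm_iteratedFDeriv_zero]
    exact hq
  | succ k =>
    rw [← norm_iteratedFDeriv_fderiv]
    have h1 : fderiv ℝ (fun q : F × G => q.2) = fun _ => ContinuousLinearMap.snd ℝ F G := by
      funext z
      exact (ContinuousLinearMap.snd ℝ F G).hasFDerivAt.fderiv
    rw [h1]
    by_cases hk : k = 0
    · subst hk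
      rw [norm_iteratedFDeriv_zero]
      exact (ContinuousLinearMap.norm_snd_le ..).trans hE
    · rw [iteratedFDeriv_const_of_ne hk]
      rw [Pi.zero_apply, norm_zero]
      linarith

theorem FDB_aff {F G H : Type} [NormedAddCommGroup F] [NormedSpace ℝ F] [NormedAddCommGroup G] [NormedSpace ℝ G] [NormedAddCommGroup H]
    [NormedSpace ℝ H] {g : F × G → H} (hg : ContDiff ℝ ∞ g) (m : ℕ) (x : F) (c : G) :
    ‖iteratedFDeriv ℝ m (fun y : F => g (y, c)) x‖ ≤ ‖iteratedFDeriv ℝ m g (x, c)‖ := by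
  have hs : ContDiff ℝ ∞ (fun z : F × G => g (z + ((0 : F), c))) := hg.comp (contDiff_id.add contDiff_const)
  have h1 := (ContinuousLinearMap.inl ℝ F G).iteratedFDeriv_comp_right hs x (i := m) (by exact_mod_cast le_top)
  have h2 : (fun y : F => g (y, c)) = (fun z : F × G => g (z + ((0 : F), c))) ∘ (ContinuousLinearMap.inl ℝ F G) := by
    funext y
    simp
  rw [h2, h1, iteratedFDeriv_comp_add_right]
  have h3 : (ContinuousLinearMap.inl ℝ F G) x + ((0 : F), c) = (x, c) := by simp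
  rw [h3]
  refine (ContinuousMultilinearMap.norm_compContinuousLinearMap_le _ _).trans ?_
  refine mul_le_of_le_one_right (norm_nonneg _) ?_
  exact Finset.prod_le_one (fun _ _ => norm_nonneg _) fun _ _ => ContinuousLinearMap.norm_inl_le_one ..

theorem FDB_bd {F : Type} [NormedAddCommGroup F] [NormedSpace ℝ F] {f : F → F} (hf : ContDiff ℝ ∞ f) (n m : ℕ) (hm : m ≤ n) (b E : ℝ) (hE : 1 ≤ E)
    (q : F × (F →L[ℝ] F)) (hq : ‖q.2‖ ≤ E) (hb : ∀ j ≤ n + 1, ‖iteratedFDeriv ℝ j f q.1‖ ≤ b) :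
    ‖iteratedFDeriv ℝ m (FDB_f f) q‖ ≤ b + 2 ^ n * b * E := by
  have hb0 : 0 ≤ b := (norm_nonneg _).trans (hb 0 (Nat.zero_le _))
  have hE0 : 0 ≤ E := by linarith
  have hs1 : ContDiff ℝ ∞ (fun q : F × (F →L[ℝ] F) => f q.1) := hf.comp contDiff_fst
  have hdf : ContDiff ℝ ∞ (fderiv ℝ f) := hf.fderiv_right (m := ∞) le_rfl
  have hs2 : ContDiff ℝ ∞ (fun q : F × (F →L[ℝ] F) => fderiv ℝ f q.1) := hdf.comp contDiff_fst
  have hs3 : ContDiff ℝ ∞ (fun q : F × (F →L[ℝ] F) => q.2) := contDiff_snd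
  have hm' : ((m : ℕ∞) : WithTop ℕ∞) ≤ ∞ := by exact_mod_cast le_top
  have h1 : iteratedFDeriv ℝ m (FDB_f f) q = (iteratedFDeriv ℝ m (fun q : F × (F →L[ℝ] F) => f q.1) q).prod
      (iteratedFDeriv ℝ m (fun q : F × (F →L[ℝ] F) => (fderiv ℝ f q.1).comp q.2) q) :=
    iteratedFDeriv_prodMk hs1.contDiffAt (hs2.clm_comp hs3).contDiffAt hm'
  have h4 : 0 ≤ 2 ^ n * b * E := by positivity
  rw [h1, ContinuousMultilinearMap.opNorm_prod]
  refine max_le ?_ ?_
  · have h2 := (FDB_fst hf m q).trans (hb m (by omega))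
    linarith
  · have h2 := (ContinuousLinearMap.compL ℝ F F F).norm_iteratedFDeriv_le_of_bilinear_of_le_one hs2 hs3 q (n := m) hm'
      (ContinuousLinearMap.norm_compL_le ℝ F F F)
    have h3 : ∑ i ∈ Finset.range (m + 1), (m.choose i : ℝ) * ‖iteratedFDeriv ℝ i (fun q : F × (F →L[ℝ] F) => fderiv ℝ f q.1) q‖ *
        ‖iteratedFDeriv ℝ (m - i) (fun q : F × (F →L[ℝ] F) => q.2) q‖ ≤ ∑ i ∈ Finset.range (m + 1), (m.choose i : ℝ) * b * E := by
      refine Finset.sum_le_sum fun i hi => ?_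
      have hi' : i ≤ m := Nat.lt_succ_iff.1 (Finset.mem_range.1 hi)
      have e1 : ‖iteratedFDeriv ℝ i (fun q : F × (F →L[ℝ] F) => fderiv ℝ f q.1) q‖ ≤ b := by
        refine (FDB_fst hdf i q).trans ?_
        rw [norm_iteratedFDeriv_fderiv]
        exact hb (i + 1) (by omega)
      have e2 := FDB_snd (m - i) q E hE hq
      exact mul_le_mul (mul_le_mul_of_nonneg_left e1 (Nat.cast_nonneg _)) e2 (by positivity) (mul_nonneg (Nat.cast_nonneg _) hb0)
    have h5 : ∑ i ∈ Finset.range (m + 1), (m.choose i : ℝ) * b * E = 2 ^ m * b * E := by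
      rw [← Finset.sum_mul, ← Finset.sum_mul]
      have := Nat.sum_range_choose m
      have h6 : ∑ i ∈ Finset.range (m + 1), (m.choose i : ℝ) = 2 ^ m := by exact_mod_cast this
      rw [h6]
    have h6 : (2 : ℝ) ^ m ≤ 2 ^ n := pow_le_pow_right₀ (by norm_num) hm
    have h7 : (2 : ℝ) ^ m * b * E ≤ 2 ^ n * b * E := mul_le_mul_of_nonneg_right (mul_le_mul_of_nonneg_right h6 hb0) hE0
    have h8 := h2.trans (h3.trans (h5.le.trans h7))
    have h9 : ‖iteratedFDeriv ℝ m (fun q : F × (F →L[ℝ] F) => (fderiv ℝ f q.1).comp q.2) q‖ ≤ 2 ^ n * b * E := h8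
    linarith

theorem FDB_proof (hFC1 : FC1_stmt) : FDB_stmt := by
  have key : ∀ (n : ℕ) (F : Type) [NormedAddCommGroup F] [NormedSpace ℝ F] [FiniteDimensional ℝ F] (T b : ℝ), ∃ C : ℝ,
      ∀ (f : F → F) (Φ : ℝ → F → F) (x : F), ContDiff ℝ ∞ f → CRO.IsC1Flow f Φ → ContDiff ℝ ∞ (fun q : ℝ × F => Φ q.1 q.2) →
      (∀ t, |t| ≤ T → ∀ m ≤ n, ‖iteratedFDeriv ℝ m f (Φ t x)‖ ≤ b) → ∀ t, |t| ≤ T → ∀ m, 1 ≤ m → m ≤ n → ‖iteratedFDeriv ℝ m (Φ t) x‖ ≤ C := by
    intro n
    induction n with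
    | zero =>
      intro F _ _ _ T b
      exact ⟨0, fun f Φ x _ _ _ _ t _ m h1 h2 => absurd (h1.trans h2) (by norm_num)⟩
    | succ n ih =>
      intro F _ _ _ T b
      obtain ⟨C', hC'⟩ := ih (F × (F →L[ℝ] F)) T (b + 2 ^ n * b * Real.exp (b * T))
      refine ⟨max (Real.exp (b * T)) C', ?_⟩
      intro f Φ x hf hC hΦ hb t ht m h1 h2
      have hT : 0 ≤ T := (abs_nonneg t).trans ht
      have hb0 : 0 ≤ b := (norm_nonneg _).trans (hb t ht 0 (Nat.zero_le _))
      have hE : 1 ≤ Real.exp (b * T) := Real.one_le_exp (mul_nonneg hb0 hT)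
      have hgr : ∀ s, |s| ≤ T → ‖fderiv ℝ (Φ s) x‖ ≤ Real.exp (b * T) := by
        intro s hs
        refine FDB_gr hC x T b (fun r hr => ?_) s hs
        rw [← norm_iteratedFDeriv_one]
        exact hb r hr 1 (by omega)
      obtain ⟨k, rfl⟩ : ∃ k, m = k + 1 := ⟨m - 1, by omega⟩
      by_cases hk : k = 0
      · subst hk
        rw [zero_add, norm_iteratedFDeriv_one]
        exact (hgr t ht).trans (le_max_left _ _)
      · refine le_trans ?_ (le_max_right _ _)
        have hfl := FDB_flow hFC1 hf hC hΦ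
        have h3 := hC' (FDB_f f) (FDB_F Φ) (x, ContinuousLinearMap.id ℝ F) (FDB_fs hf) hfl (FDB_Fs hΦ) (fun s hs j hj => by
          have e1 : FDB_F Φ s (x, ContinuousLinearMap.id ℝ F) = (Φ s x, fderiv ℝ (Φ s) x) := by
            unfold FDB_F
            rw [ContinuousLinearMap.comp_id]
          rw [e1]
          exact FDB_bd hf n j hj b _ hE _ (hgr s hs) fun i hi => hb s hs i hi) t ht k (by omega) (by omega)
        have hgs : ContDiff ℝ ∞ (FDB_F Φ t) := (FDB_Fs hΦ).comp (contDiff_const.prodMk contDiff_id)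
        have e2 : fderiv ℝ (Φ t) = (ContinuousLinearMap.snd ℝ F (F →L[ℝ] F)) ∘ fun y => FDB_F Φ t (y, ContinuousLinearMap.id ℝ F) := by
          funext y
          show fderiv ℝ (Φ t) y = (fderiv ℝ (Φ t) y).comp (ContinuousLinearMap.id ℝ F)
          rw [ContinuousLinearMap.comp_id]
        rw [← norm_iteratedFDeriv_fderiv, e2]
        have hcs : ContDiff ℝ ∞ (fun y : F => FDB_F Φ t (y, ContinuousLinearMap.id ℝ F)) := hgs.comp (contDiff_id.prodMk contDiff_const)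
        refine ((ContinuousLinearMap.snd ℝ F (F →L[ℝ] F)).norm_iteratedFDeriv_comp_left hcs.contDiffAt (n := k) (by exact_mod_cast le_top)).trans ?_
        refine (mul_le_of_le_one_left (norm_nonneg _) (ContinuousLinearMap.norm_snd_le ..)).trans ?_
        exact (FDB_aff hgs k x (ContinuousLinearMap.id ℝ F)).trans h3
  intro F _ _ _ n T b
  exact key n F T b

end

end Pool.Agent.VD
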