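import Pool.Agent.helper11.VD.Spec3e

/-!
# Row vd:VHPD (MP_07c750_an, project VD, block C): choice of the parameters
-/

set_option autoImplicit false

open scoped ContDiff Topology InnerProductSpace ENNReal ComplexConjugate
open MeasureTheory Filter Set

namespace Pool.Agent.VD

open Pool.Agent.RPQ (PN PJ UN upd IsOp nst)
open Pool.Agent.VQ (CH PS KZ perZ cmZ stZ wdZ InvS AdZ vz mZ wM qZ phZ rk)
open Pool.Agent.VN (aN)
open Pool.Agent.VDE (UWLD FDX)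

theorem VHPD_adm {C C' : ℝ} {A : Par} (hC : 0 ≤ C) (h : C ≤ C') (hA : Adm C' A) : Adm C A := by
  have h0 : 0 ≤ C' := hC.trans h
  have hz1 : 0 ≤ A.z1 := le_trans (mul_nonneg h0 hA.z.le) hA.z1
  have hz2 : 0 ≤ A.z2 := le_trans (mul_nonneg h0 hz1) hA.z2
  refine ⟨hA.e2, ?_, hA.z, ?_, ?_, ?_⟩
  · exact (mul_le_mul_of_nonneg_right h hA.e2.le).trans hA.e2'
  · exact (mul_le_mul_of_nonneg_right h hA.z.le).trans hA.z1
  · exact (mul_le_mul_of_nonneg_right h hz1).trans hA.z2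
  · exact (mul_le_mul_of_nonneg_right h hz2).trans hA.up

theorem VHPD_nst (b L n : ℕ) (hb : 1 ≤ b) (l : List ℕ) (hl : l ∈ AdZ b L n) : nst l ≤ b * n * L := by
  obtain ⟨c, hc, hx, rfl⟩ := hl
  subst hc
  induction c with
  | nil => simp [nst]
  | cons x c ih =>
    have h1 : x < n := hx x (by simp)
    have h2 := ih (fun y hy => hx y (List.mem_cons_of_mem _ hy))
    have h3 : nst ((x :: c).map (fun x => b * x + (b - 1))) = (b * x + (b - 1) + 1) + nst (c.map (fun x => b * x + (b - 1))) := by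
      simp [nst]
    have h4 : b * x + (b - 1) + 1 = b * (x + 1) := by
      rw [Nat.mul_succ]
      omega
    have h5 : b * (x + 1) ≤ b * n := Nat.mul_le_mul_left b h1
    have h6 : b * n * (c.length + 1) = b * n * c.length + b * n := Nat.mul_succ _ _
    rw [h3, h4, List.length_cons, h6]
    omega

/-- the products of `n` elements of a finite set -/
theorem VHPD_prod {Γ : Type} [Group Γ] (S : Set Γ) (hS : S.Finite) (n : ℕ) : ∃ S0 : Finset Γ, S0.card ≤ hS.toFinset.card ^ n ∧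
    ∀ l : List Γ, l.length = n → (∀ γ ∈ l, γ ∈ S) → l.prod ∈ S0 := by
  classical
  refine ⟨(Finset.univ : Finset (Fin n → hS.toFinset)).image (fun f => (List.ofFn fun i => (f i : Γ)).prod), ?_, ?_⟩
  · refine Finset.card_image_le.trans ?_
    rw [Finset.card_univ, Fintype.card_fun, Fintype.card_coe, Fintype.card_fin]
  · intro l hl hm
    rw [Finset.mem_image]
    subst hl
    refine ⟨fun i => ⟨l.get i, hS.mem_toFinset.2 (hm _ (l.get_mem i))⟩, Finset.mem_univ _, ?_⟩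
    simp only [List.ofFn_get]

/-- the parameters -/
theorem VHPD_par (C' e2 z0 : ℝ) (N : ℕ) (hC' : 1 ≤ C') (he2 : 0 < e2) (he2C : e2 ≤ 1 / C') (hz0 : 0 < z0) (hN : 1 ≤ N) :
    ∃ A : Par, Adm C' A ∧ A.e2 = e2 ∧ A.z2 ≤ z0 ∧ N * (C' * A.z2) ≤ 1 / 4 ∧ 0 ≤ A.z2 := by
  have hC0 : (0 : ℝ) < C' := by linarith
  have hN0 : (1 : ℝ) ≤ N := by exact_mod_cast hN
  have hNp : (0 : ℝ) < N := by linarith
  have hz : 0 < min z0 (1 / (4 * N * C')) := lt_min hz0 (by positivity)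
  have h1 : min z0 (1 / (4 * N * C')) ≤ 1 / (4 * N * C') := min_le_right _ _
  have h2 : C' * (1 / (4 * N * C')) = 1 / (4 * N) := by field_simp
  have h3 : C' * min z0 (1 / (4 * N * C')) ≤ 1 / (4 * N) := by
    rw [← h2]
    exact mul_le_mul_of_nonneg_left h1 hC0.le
  have h4 : 1 / (4 * (N : ℝ)) ≤ 1 := by
    rw [div_le_one (by positivity)]
    linarith
  refine ⟨⟨e2, min z0 (1 / (4 * N * C')) / C' / C', min z0 (1 / (4 * N * C')) / C', min z0 (1 / (4 * N * C'))⟩, ⟨he2, ?_, ?_, ?_, ?_, ?_⟩, rfl, min_le_left _ _, ?_, hz.le⟩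
  · show C' * e2 ≤ 1
    calc C' * e2 ≤ C' * (1 / C') := mul_le_mul_of_nonneg_left he2C hC0.le
      _ = 1 := by field_simp
  · show 0 < min z0 (1 / (4 * N * C')) / C' / C'
    positivity
  · show C' * (min z0 (1 / (4 * N * C')) / C' / C') ≤ min z0 (1 / (4 * N * C')) / C'
    rw [mul_div_cancel₀ _ hC0.ne']
  · show C' * (min z0 (1 / (4 * N * C')) / C') ≤ min z0 (1 / (4 * N * C'))
    rw [mul_div_cancel₀ _ hC0.ne']
  · exact h3.trans h4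
  · show (N : ℝ) * (C' * min z0 (1 / (4 * N * C'))) ≤ 1 / 4
    calc (N : ℝ) * (C' * min z0 (1 / (4 * N * C'))) ≤ N * (1 / (4 * N)) := mul_le_mul_of_nonneg_left h3 hNp.le
      _ = 1 / 4 := by field_simp

theorem VHPD_jmp (N : ℕ) (hN : 1 ≤ N) (R : ℝ) (hR1 : 1 ≤ R) (h2 : (4 * (N : ℝ)) ^ 12 ≤ R) :
    R ^ (-(1 / 3) : ℝ) ≤ R ^ (-(1 / 4) : ℝ) / (4 * N) := by
  have hR0 : (0 : ℝ) < R := by linarith
  have hN0 : (0 : ℝ) < N := by exact_mod_cast hN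
  have h3 : R ^ (-(1 / 3) : ℝ) = R ^ (-(1 / 4) : ℝ) * R ^ (-(1 / 12) : ℝ) := by
    rw [← Real.rpow_add hR0]
    norm_num
  have h4 : 4 * (N : ℝ) ≤ R ^ (1 / 12 : ℝ) := by
    calc 4 * (N : ℝ) = ((4 * (N : ℝ)) ^ 12) ^ (1 / 12 : ℝ) := by
          rw [← Real.rpow_natCast, ← Real.rpow_mul (by positivity)]
          norm_num
      _ ≤ R ^ (1 / 12 : ℝ) := Real.rpow_le_rpow (by positivity) h2 (by norm_num)
  have h5 : R ^ (1 / 12 : ℝ) * R ^ (-(1 / 12) : ℝ) = 1 := by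
    rw [← Real.rpow_add hR0]
    norm_num
  have h6 : 0 ≤ R ^ (-(1 / 12) : ℝ) := Real.rpow_nonneg hR0.le _
  have h7 : 0 ≤ R ^ (-(1 / 4) : ℝ) := Real.rpow_nonneg hR0.le _
  rw [le_div_iff₀ (by positivity), h3]
  calc R ^ (-(1 / 4) : ℝ) * R ^ (-(1 / 12) : ℝ) * (4 * N) = R ^ (-(1 / 4) : ℝ) * ((4 * N) * R ^ (-(1 / 12) : ℝ)) := by ring
    _ ≤ R ^ (-(1 / 4) : ℝ) * (R ^ (1 / 12 : ℝ) * R ^ (-(1 / 12) : ℝ)) :=
        mul_le_mul_of_nonneg_left (mul_le_mul_of_nonneg_right h4 h6) h7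
    _ = R ^ (-(1 / 4) : ℝ) := by rw [h5, mul_one]

theorem VHPD_card (s : ℕ) (e2 R : ℝ) (he2 : 0 < e2) (hs : e2 * Real.log (1 + s) ≤ 1 / 2) (hR1 : 1 ≤ R) (hRs : (1 + (s : ℝ)) ^ 2 ≤ R) :
    (s : ℝ) ^ (⌊e2 * Real.log R⌋₊ + 1) ≤ R := by
  have hR0 : (0 : ℝ) < R := by linarith
  have hlog : 0 ≤ Real.log R := Real.log_nonneg hR1
  have hs0 : (0 : ℝ) ≤ s := Nat.cast_nonneg s
  have h1 : (s : ℝ) ^ (⌊e2 * Real.log R⌋₊ + 1) ≤ (1 + (s : ℝ)) ^ (⌊e2 * Real.log R⌋₊ + 1) := pow_le_pow_left₀ hs0 (by linarith) _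
  have h2 : (1 + (s : ℝ)) ^ (⌊e2 * Real.log R⌋₊) ≤ R ^ (1 / 2 : ℝ) := by
    rw [← Real.rpow_natCast]
    have h3 : ((⌊e2 * Real.log R⌋₊ : ℕ) : ℝ) ≤ e2 * Real.log R := Nat.floor_le (by positivity)
    calc (1 + (s : ℝ)) ^ ((⌊e2 * Real.log R⌋₊ : ℕ) : ℝ) ≤ (1 + (s : ℝ)) ^ (e2 * Real.log R) := Real.rpow_le_rpow_of_exponent_le (by linarith) h3
      _ = R ^ (e2 * Real.log (1 + s)) := by
          rw [Real.rpow_def_of_pos (by positivity), Real.rpow_def_of_pos hR0]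
          congr 1
          ring
      _ ≤ R ^ (1 / 2 : ℝ) := Real.rpow_le_rpow_of_exponent_le hR1 hs
  have h4 : 1 + (s : ℝ) ≤ R ^ (1 / 2 : ℝ) := by
    calc 1 + (s : ℝ) = ((1 + (s : ℝ)) ^ 2) ^ (1 / 2 : ℝ) := by
          rw [← Real.rpow_natCast, ← Real.rpow_mul (by positivity)]
          norm_num
      _ ≤ R ^ (1 / 2 : ℝ) := Real.rpow_le_rpow (by positivity) hRs (by norm_num)
  refine h1.trans ?_
  rw [pow_succ]
  calc (1 + (s : ℝ)) ^ (⌊e2 * Real.log R⌋₊) * (1 + s) ≤ R ^ (1 / 2 : ℝ) * R ^ (1 / 2 : ℝ) :=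
        mul_le_mul h2 h4 (by positivity) (Real.rpow_nonneg hR0.le _)
    _ = R := by
        rw [← Real.rpow_add hR0]
        norm_num

theorem VHPD_proof (hI4D : I4D_stmt) (hI6D : I6D_stmt) (hI7D : I7D_stmt) (hUNDD : UNDD_stmt) : VHPD_stmt := by
  intro d Γ _ _ K F0 r0 χ0 ch k B Cn hd hK hF0 hPU hch h e hh he
  obtain ⟨C4, rS, hC4, P4⟩ := hI4D d Γ K r0 χ0 ch k B hd hK hPU hch
  obtain ⟨C6, hC6, P6⟩ := hI6D d Γ K r0 k B hd hK hPU.one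
  obtain ⟨C7, cb, hC7, hcb, P7⟩ := hI7D d Γ K F0 r0 χ0 ch k B hd hK hF0 hPU hch
  obtain ⟨Cu, hCu, Pu⟩ := hUNDD d Γ K r0 k B Cn hd hK hPU.one
  obtain ⟨v0, hv0, P7⟩ := P7 h e hh he
  refine ⟨v0, hv0, ?_⟩
  intro C T0 M0 hC hT0 hM0
  have hcbi : 0 < 1 / cb := by positivity
  obtain ⟨C', hC'1, hCC, hC4', hC6', hC7', hCu', hCb'⟩ : ∃ C' : ℝ, 1 ≤ C' ∧ C ≤ C' ∧ C4 ≤ C' ∧ C6 ≤ C' ∧ C7 ≤ C' ∧ Cu ≤ C' ∧ 1 / cb ≤ C' := by
    refine ⟨C + C4 + C6 + C7 + Cu + 1 / cb, ?_, ?_, ?_, ?_, ?_, ?_, ?_⟩ <;> linarith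
  have hC'0 : (0 : ℝ) < C' := by linarith
  -- the finite set
  have hSG : (SG Γ d rS).Finite := by
    refine (hK.proper (Metric.closedBall 0 rS) (isCompact_closedBall _ _)).subset ?_
    rintro γ ⟨x, hx, hγ⟩
    exact ⟨x, by rwa [Metric.mem_closedBall, dist_zero_right], by rwa [Metric.mem_closedBall, dist_zero_right]⟩
  obtain ⟨s, hs⟩ : ∃ s : ℕ, s = hSG.toFinset.card := ⟨_, rfl⟩
  have hlogs : 0 ≤ Real.log (1 + (s : ℝ)) := Real.log_nonneg (by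
    have : (0 : ℝ) ≤ s := Nat.cast_nonneg s
    linarith)
  obtain ⟨e2, he2⟩ : ∃ e2 : ℝ, e2 = 1 / (2 * C' * (1 + Real.log (1 + (s : ℝ)))) := ⟨_, rfl⟩
  have he20 : 0 < e2 := by
    rw [he2]
    positivity
  have he2C : e2 ≤ 1 / C' := by
    rw [he2]
    apply one_div_le_one_div_of_le hC'0
    nlinarith
  have he2s : e2 * Real.log (1 + (s : ℝ)) ≤ 1 / 2 := by
    rw [he2, div_mul_eq_mul_div, one_mul, div_le_div_iff₀ (by positivity) (by norm_num)]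
    nlinarith
  have he27 : e2 ≤ 1 / C7 := he2C.trans (one_div_le_one_div_of_le (by linarith) hC7')
  have he2b : e2 ≤ cb := by
    refine he2C.trans ?_
    rw [div_le_iff₀ hcb] at hCb'
    rw [div_le_iff₀ hC'0]
    linarith
  obtain ⟨th, z0, hth, hz0, P7⟩ := P7 T0 e2 hT0 he20 he27 he2b
  -- number of big steps in a block
  obtain ⟨b, hb1, hb6, hb7⟩ : ∃ b : ℕ, 1 ≤ b ∧ cb ≤ b * e2 ∧ b * e2 < 2 * cb := by
    refine ⟨⌈cb / e2⌉₊, ?_, ?_, ?_⟩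
    · apply Nat.one_le_iff_ne_zero.mpr
      intro h0
      rw [Nat.ceil_eq_zero] at h0
      have : 0 < cb / e2 := by positivity
      linarith
    · have h1 := Nat.le_ceil (cb / e2)
      rwa [div_le_iff₀ he20] at h1
    · have h1 := Nat.ceil_lt_add_one (show 0 ≤ cb / e2 by positivity)
      have h2 := mul_lt_mul_of_pos_right h1 he20
      rw [add_mul, div_mul_cancel₀ _ he20.ne'] at h2
      linarith
  obtain ⟨L, hL1, hL2⟩ : ∃ L : ℕ, 1 ≤ L ∧ M0 + d + 2 ≤ th * L := by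
    refine ⟨⌈(M0 + d + 2) / th⌉₊ + 1, by omega, ?_⟩
    have h1 := Nat.le_ceil ((M0 + d + 2) / th)
    rw [div_le_iff₀ hth] at h1
    push_cast
    nlinarith
  obtain ⟨n, hn1, hn2⟩ : ∃ n : ℕ, 1 ≤ n ∧ (2 * (L : ℝ) + 1) / n ≤ e := by
    refine ⟨⌈(2 * (L : ℝ) + 1) / e⌉₊ + 1, by omega, ?_⟩
    have h1 := Nat.le_ceil ((2 * (L : ℝ) + 1) / e)
    rw [div_le_iff₀ he] at h1
    rw [div_le_iff₀ (by positivity)]
    push_cast
    nlinarith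
  obtain ⟨N, hN⟩ : ∃ N : ℕ, N = b * n * L := ⟨_, rfl⟩
  have hN1 : 1 ≤ N := by
    rw [hN]
    exact Nat.one_le_iff_ne_zero.mpr (by positivity)
  have hN1' : (1 : ℝ) ≤ N := by exact_mod_cast hN1
  obtain ⟨A, hA, hAe, hAz0, hAN, hAz⟩ := VHPD_par C' e2 z0 N hC'1 he20 he2C hz0 hN1
  have hA4 : Adm C4 A := VHPD_adm (by linarith) hC4' hA
  have hA6 : Adm C6 A := VHPD_adm (by linarith) hC6' hA
  have hA7 : Adm C7 A := VHPD_adm (by linarith) hC7' hA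
  have hAu : Adm Cu A := VHPD_adm (by linarith) hCu' hA
  obtain ⟨δ, R4, hδ, hR4, P4⟩ := P4 A hA4
  obtain ⟨R6, hR6, P6⟩ := P6 A hA6
  obtain ⟨R7, hR7, P7⟩ := P7 A hA7 hAe hAz0
  obtain ⟨a, Ru, ha, hRu, Pu⟩ := Pu A N ((4 * d + 6) * N + M0 + 10) hAu hN1 (by
    have : (0 : ℝ) ≤ (4 * (d : ℝ) + 6) * N := by positivity
    linarith)
  have hgap : 0 < 2 * cb - b * e2 := by linarith
  obtain ⟨R0, h3, g4, g6, g7, gu, gs, gN, ge⟩ : ∃ R0 : ℝ, 3 ≤ R0 ∧ R4 ≤ R0 ∧ R6 ≤ R0 ∧ R7 ≤ R0 ∧ Ru ≤ R0 ∧ (1 + (s : ℝ)) ^ 2 ≤ R0 ∧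
      (4 * (N : ℝ)) ^ 12 ≤ R0 ∧ Real.exp (b / (2 * cb - b * e2)) ≤ R0 := by
    have h1 : 0 ≤ (4 * (N : ℝ)) ^ 12 := by positivity
    have h2 : 0 ≤ (1 + (s : ℝ)) ^ 2 := by positivity
    have h4 : 0 ≤ Real.exp (b / (2 * cb - b * e2)) := (Real.exp_pos _).le
    refine ⟨R4 + R6 + R7 + Ru + (1 + (s : ℝ)) ^ 2 + (4 * (N : ℝ)) ^ 12 + Real.exp (b / (2 * cb - b * e2)), ?_, ?_, ?_, ?_, ?_, ?_, ?_, ?_⟩ <;> linarith
  refine ⟨th, b, L, n, N, A, a, R0, Cu, hth, hb1, hL1, hn1, hN1, hn2, hL2, VHPD_adm (by linarith) hCC hA, ?_, ha, h3, hCu, ?_⟩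
  · intro l hl
    rw [hN]
    exact VHPD_nst b L n hb1 l hl
  intro R ρ κ J p χ G Φ hR hρ hρa hκ hnet hG hΦ hU
  have hRpos : (0 : ℝ) < R := by linarith
  have hR1 : (1 : ℝ) ≤ R := by linarith
  have hlog : 0 ≤ Real.log R := Real.log_nonneg hR1
  have hlog2 : (b : ℝ) ≤ (2 * cb - b * e2) * Real.log R := by
    have h1 : (b : ℝ) / (2 * cb - b * e2) ≤ Real.log R := by
      rw [Real.le_log_iff_exp_le hRpos]
      exact ge.trans hR
    rw [div_le_iff₀ hgap] at h1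
    linarith
  have hn : A.n R = ⌊e2 * Real.log R⌋₊ := by
    show ⌊A.e2 * Real.log R⌋₊ = _
    rw [hAe]
  have htu1 : e2 * Real.log R ≤ A.tu R := by
    show _ ≤ ((A.n R : ℕ) : ℝ) + 1
    rw [hn]
    exact (Nat.lt_floor_add_one _).le
  have htu2 : A.tu R ≤ e2 * Real.log R + 1 := by
    show ((A.n R : ℕ) : ℝ) + 1 ≤ _
    rw [hn]
    have := Nat.floor_le (show 0 ≤ e2 * Real.log R by positivity)
    linarith
  have hb0 : (0 : ℝ) ≤ b := Nat.cast_nonneg b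
  obtain ⟨k1, k2, k3, k4⟩ := P4 R G Φ (g4.trans hR) hG hΦ
  obtain ⟨nc, n1, n2⟩ := Pu R ρ κ J p χ G Φ (gu.trans hR) hρ hρa hκ hnet hG hΦ
  refine ⟨C' * A.z2, (1 + R ^ (-δ)) * (R / (2 * Real.pi)) ^ d, nc, ?_⟩
  have hRd0 : 0 ≤ R ^ (-δ) := Real.rpow_nonneg hRpos.le _
  have hRd1 : R ^ (-δ) ≤ 1 := Real.rpow_le_one_of_one_le_of_nonpos hR1 (by linarith)
  have hpi := Real.pi_gt_three
  refine ⟨k1, k2, ?_, fun y y' hy => (k3 y y' hy).2, k4, ⟨?_, ?_⟩, ?_, ⟨by positivity, hAN⟩, ?_, ?_, n1⟩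
  · obtain ⟨S0, hS0, hS1⟩ := VHPD_prod (SG Γ d rS) hSG (A.n R + 1)
    refine ⟨S0, ?_, ?_⟩
    · have h1 : (S0.card : ℝ) ≤ (s : ℝ) ^ (⌊e2 * Real.log R⌋₊ + 1) := by
        rw [hs, ← hn]
        exact_mod_cast hS0
      exact h1.trans (VHPD_card s e2 R he20 he2s hR1 (gs.trans hR))
    · intro y y' hy
      obtain ⟨⟨l, hl1, hl2, hl3⟩, _⟩ := k3 y y' hy
      rw [← hl3]
      exact hS1 l hl1 hl2
  · have h1 : 0 ≤ (R / (2 * Real.pi)) ^ d := by positivity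
    nlinarith
  · rw [div_pow]
    have h1 : (2 : ℝ) ≤ (2 * Real.pi) ^ d := by
      calc (2 : ℝ) ≤ 2 * Real.pi := by linarith
        _ = (2 * Real.pi) ^ 1 := (pow_one _).symm
        _ ≤ (2 * Real.pi) ^ d := pow_le_pow_right₀ (by linarith) (by omega)
    have h2 : 0 ≤ R ^ d := by positivity
    rw [mul_div_assoc', div_le_iff₀ (by positivity)]
    nlinarith
  · intro y y' hy
    obtain ⟨j1, j2, j3⟩ := P6 R G Φ (g6.trans hR) hG hΦ y y' hy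
    exact ⟨j1, j2, j3.trans (VHPD_jmp N hN1 R hR1 (gN.trans hR))⟩
  · intro y hy
    refine P7 R G Φ b (g7.trans hR) hG hΦ hU ?_ ?_ y hy
    · calc cb * Real.log R ≤ (b * e2) * Real.log R := mul_le_mul_of_nonneg_right hb6 hlog
        _ = b * (e2 * Real.log R) := by ring
        _ ≤ b * A.tu R := mul_le_mul_of_nonneg_left htu1 hb0
    · calc b * A.tu R ≤ b * (e2 * Real.log R + 1) := mul_le_mul_of_nonneg_left htu2 hb0
        _ = b * e2 * Real.log R + b := by ring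
        _ ≤ b * e2 * Real.log R + (2 * cb - b * e2) * Real.log R := by linarith
        _ = 2 * cb * Real.log R := by ring
  · intro N' h1 h2 x y w hw0 hw
    refine (n2 N' h1 h2 x y w hw0 hw).trans ?_
    apply ENNReal.ofReal_le_ofReal
    refine mul_le_mul_of_nonneg_left ?_ (Real.rpow_nonneg hRpos.le _)
    apply pow_le_pow_left₀ (Real.rpow_nonneg hRpos.le _)
    apply Real.rpow_le_rpow_of_exponent_le hR1
    have := mul_le_mul_of_nonneg_right hCu' hAz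
    linarith

end Pool.Agent.VD
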