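import Pool.Agent.helper11.VD.SpecC

/-!
# Project VD, block C, row WXA: the second moment of one word
-/

set_option autoImplicit false

open scoped ContDiff Topology InnerProductSpace ENNReal ComplexConjugate
open MeasureTheory Filter Set

namespace Pool.Agent.VD

open Pool.Agent.RPQ (PN PJ UN upd IsOp nst)
open Pool.Agent.VQ (PS KZ perZ cmZ stZ wdZ itZ InvS AdZ vz mZ wM inZ phZ qZ rk)
open Pool.Agent.VN (aN)

noncomputable section

theorem WXA_proof (hEHZ : VQ.EHZ_stmt) (hMSZ : VQ.MSZ_stmt) (_hVXZ : VQ.VXZ_stmt) : WXA_stmt := by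
  intro Γ _ Y _ _ m D d hPS J nc b N L n θ u S G l c q κ Sx hθ hu hSm hSi hS0 hG hc hq hb hL hl hlN hSx hsum hund
  have := hPS.sf
  have hlne : l ≠ [] := by
    obtain ⟨c', hc', -, rfl⟩ := hl
    intro h
    rw [List.map_eq_nil_iff] at h
    rw [h, List.length_nil] at hc'
    omega
  have hE := hEHZ Γ Y m D d hPS J nc θ u (fun x y => ‖u x y‖ₑ) S l κ Sx hθ hu hu.meas.enorm
    (fun γ x y => by rw [hu.inv]) (fun x y => le_rfl)
    (by
      obtain ⟨T, hT⟩ := hu.range
      exact ⟨T, fun x y h => hT x y (enorm_ne_zero.1 h)⟩) hSm hSi hlne hSx hsum hund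
  have hM := hMSZ Y m (fun x y => ‖u x y‖ₑ) S D G c q b N L n l hu.meas.enorm hSm hS0
    (fun j x y hx h => hG j x y hx (enorm_ne_zero.1 h)) hc hq hb hL hl hlN
  exact hE.trans (add_le_add (mul_le_mul_right hM κ) le_rfl)

end

end Pool.Agent.VD
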