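import Pool.Agent.helper84.VD.SpecB5

/-!
# Row vd:YDB (MP_07c750_an, project VD, block B3 part 2)
-/

set_option autoImplicit false

open scoped ContDiff Topology InnerProductSpace ENNReal
open MeasureTheory Filter Set

namespace Pool.Agent.VD

theorem YDB_herm {d : ℕ} (S : Matrix (Fin d) (Fin d) ℝ) (hS : S.transpose = S) :
    1 ≤ ‖(S.map ((↑) : ℝ → ℂ) + Complex.I • (1 : Matrix (Fin d) (Fin d) ℂ)).det‖ := by
  have hH : (S.map ((↑) : ℝ → ℂ)).IsHermitian := by
    ext i j
    rw [Matrix.conjTranspose_apply, Matrix.map_apply, Matrix.map_apply]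
    have : S j i = S i j := by
      have := congrFun (congrFun hS i) j
      rwa [Matrix.transpose_apply] at this
    rw [this]
    simp
  have h1 := Matrix.eval_charpoly (S.map ((↑) : ℝ → ℂ)) (-Complex.I)
  rw [hH.charpoly_eq, Polynomial.eval_prod] at h1
  have h2 : (Matrix.scalar (Fin d) (-Complex.I) - S.map ((↑) : ℝ → ℂ)) = -(S.map ((↑) : ℝ → ℂ) + Complex.I • (1 : Matrix (Fin d) (Fin d) ℂ)) := by
    have h3 : Matrix.scalar (Fin d) (-Complex.I) = -(Complex.I • (1 : Matrix (Fin d) (Fin d) ℂ)) := by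
      rw [Matrix.scalar_apply, ← Matrix.smul_one_eq_diagonal, neg_smul]
    rw [h3]
    abel
  rw [h2, Matrix.det_neg] at h1
  have h4 : ‖(S.map ((↑) : ℝ → ℂ) + Complex.I • (1 : Matrix (Fin d) (Fin d) ℂ)).det‖ = ‖(-1 : ℂ) ^ Fintype.card (Fin d) * (S.map ((↑) : ℝ → ℂ) + Complex.I • (1 : Matrix (Fin d) (Fin d) ℂ)).det‖ := by
    rw [norm_mul, norm_pow, norm_neg, norm_one, one_pow, one_mul]
  rw [h4, ← h1, norm_prod]
  apply Finset.one_le_prod
  intro j
  rw [Polynomial.eval_sub, Polynomial.eval_X, Polynomial.eval_C]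
  have h5 := Complex.abs_im_le_norm (-Complex.I - ((hH.eigenvalues j : ℝ) : ℂ))
  simpa using h5

theorem YDB_mat {d : ℕ} (A B : Matrix (Fin d) (Fin d) ℝ) (h : A * B.transpose = B * A.transpose) :
    |B.det| ≤ ‖(A.map ((↑) : ℝ → ℂ) + Complex.I • B.map ((↑) : ℝ → ℂ)).det‖ := by
  by_cases h0 : B.det = 0
  · rw [h0, abs_zero]
    exact norm_nonneg _
  have hu : IsUnit B.det := isUnit_iff_ne_zero.2 h0
  have hBB : B * B⁻¹ = 1 := Matrix.mul_nonsing_inv B hu
  have hBB' : B⁻¹ * B = 1 := Matrix.nonsing_inv_mul B hu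
  have hS : (B⁻¹ * A).transpose = B⁻¹ * A := by
    rw [Matrix.transpose_mul, Matrix.transpose_nonsing_inv]
    have hut : IsUnit B.transpose.det := by rwa [Matrix.det_transpose]
    have e1 : B.transpose * B.transpose⁻¹ = 1 := Matrix.mul_nonsing_inv _ hut
    calc A.transpose * B.transpose⁻¹ = (B⁻¹ * B) * A.transpose * B.transpose⁻¹ := by rw [hBB', Matrix.one_mul]
      _ = B⁻¹ * (B * A.transpose) * B.transpose⁻¹ := by rw [Matrix.mul_assoc B⁻¹ B]
      _ = B⁻¹ * (A * B.transpose) * B.transpose⁻¹ := by rw [h]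
      _ = B⁻¹ * A * (B.transpose * B.transpose⁻¹) := by simp only [Matrix.mul_assoc]
      _ = B⁻¹ * A := by rw [e1, Matrix.mul_one]
  have h1 := YDB_herm (B⁻¹ * A) hS
  have h2 : A.map ((↑) : ℝ → ℂ) + Complex.I • B.map ((↑) : ℝ → ℂ) = B.map ((↑) : ℝ → ℂ) * ((B⁻¹ * A).map ((↑) : ℝ → ℂ) + Complex.I • (1 : Matrix (Fin d) (Fin d) ℂ)) := by
    rw [Matrix.mul_add, Matrix.mul_smul, Matrix.mul_one]
    congr 1
    have h3 : (B.map ((↑) : ℝ → ℂ)) * ((B⁻¹ * A).map ((↑) : ℝ → ℂ)) = (B * (B⁻¹ * A)).map ((↑) : ℝ → ℂ) := by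
      have := Matrix.map_mul (L := B) (M := B⁻¹ * A) (f := Complex.ofRealHom)
      exact this.symm
    rw [h3, ← Matrix.mul_assoc, hBB, Matrix.one_mul]
  rw [h2, Matrix.det_mul, norm_mul]
  have h4 : (B.map ((↑) : ℝ → ℂ)).det = ((B.det : ℝ) : ℂ) := by
    have := RingHom.map_det Complex.ofRealHom B
    exact this.symm
  rw [h4, Complex.norm_real, Real.norm_eq_abs]
  nlinarith [abs_nonneg B.det]

theorem YDB_symp {d : ℕ} (L : P d →L[ℝ] P d) (hL : ∀ v w, omg (L v) (L w) = omg v w) (A B : Matrix (Fin d) (Fin d) ℝ)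
    (hA : ∀ i j, A i j = (L (EuclideanSpace.single j 1, 0)).1 i) (hB : ∀ i j, B i j = (L (0, EuclideanSpace.single j 1)).1 i) :
    A * B.transpose = B * A.transpose := by
  obtain ⟨C, hC⟩ : ∃ C : Matrix (Fin d) (Fin d) ℝ, ∀ i j, C i j = (L (EuclideanSpace.single j 1, 0)).2 i := ⟨Matrix.of fun i j => (L (EuclideanSpace.single j 1, 0)).2 i, fun i j => rfl⟩
  obtain ⟨D, hD⟩ : ∃ D : Matrix (Fin d) (Fin d) ℝ, ∀ i j, D i j = (L (0, EuclideanSpace.single j 1)).2 i := ⟨Matrix.of fun i j => (L (0, EuclideanSpace.single j 1)).2 i, fun i j => rfl⟩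
  have hin : ∀ u v : V d, ⟪u, v⟫_ℝ = ∑ i, u i * v i := by
    intro u v
    rw [PiLp.inner_apply]
    refine Finset.sum_congr rfl fun i _ => ?_
    rw [real_inner_eq_re_inner]
    simp [mul_comm]
  have h1 : A.transpose * C = C.transpose * A := by
    ext j k
    rw [Matrix.mul_apply, Matrix.mul_apply]
    simp only [Matrix.transpose_apply, hA, hC]
    have h := hL (EuclideanSpace.single j 1, 0) (EuclideanSpace.single k 1, 0)
    unfold omg at h
    rw [hin, hin] at h
    simp only [inner_zero_left, sub_zero] at h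
    have h' := sub_eq_zero.1 h
    rw [h']
    exact Finset.sum_congr rfl fun i _ => mul_comm _ _
  have h2 : B.transpose * D = D.transpose * B := by
    ext j k
    rw [Matrix.mul_apply, Matrix.mul_apply]
    simp only [Matrix.transpose_apply, hB, hD]
    have h := hL (0, EuclideanSpace.single j 1) (0, EuclideanSpace.single k 1)
    unfold omg at h
    rw [hin, hin] at h
    simp only [inner_zero_right, sub_zero] at h
    have h' := sub_eq_zero.1 h
    rw [h']
    exact Finset.sum_congr rfl fun i _ => mul_comm _ _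
  have h3 : A.transpose * D - C.transpose * B = 1 := by
    ext j k
    rw [Matrix.sub_apply, Matrix.mul_apply, Matrix.mul_apply]
    simp only [Matrix.transpose_apply, hA, hB, hC, hD]
    have h := hL (EuclideanSpace.single j 1, 0) (0, EuclideanSpace.single k 1)
    unfold omg at h
    rw [hin, hin] at h
    have h5 : ⟪(EuclideanSpace.single k (1 : ℝ) : V d), EuclideanSpace.single j 1⟫_ℝ = if j = k then 1 else 0 := by
      rw [EuclideanSpace.inner_single_left]
      simp [eq_comm]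
    simp only [inner_zero_right, zero_sub] at h
    rw [h5] at h
    rw [Matrix.one_apply]
    have h6 : ∑ i, (L (EuclideanSpace.single j 1, 0)).1 i * (L (0, EuclideanSpace.single k 1)).2 i = ∑ i, (L (0, EuclideanSpace.single k 1)).2 i * (L (EuclideanSpace.single j 1, 0)).1 i :=
      Finset.sum_congr rfl fun i _ => mul_comm _ _
    rw [h6]
    linarith
  have h4 : Matrix.fromBlocks A B C D ∈ Matrix.symplecticGroup (Fin d) ℝ := SymplecticGroup.fromBlocks_mem_iff.2 ⟨h1, h2, h3⟩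
  have h5 := SymplecticGroup.transpose_mem h4
  rw [Matrix.fromBlocks_transpose] at h5
  have h6 := (SymplecticGroup.fromBlocks_mem_iff.1 h5).1
  rwa [Matrix.transpose_transpose, Matrix.transpose_transpose] at h6

theorem YDB_proof : YDB_stmt := by
  intro d f p hf
  obtain ⟨A, hA⟩ : ∃ A : Matrix (Fin d) (Fin d) ℝ, ∀ i j, A i j = (fderiv ℝ f p (EuclideanSpace.single j 1, 0)).1 i := ⟨Matrix.of fun i j => (fderiv ℝ f p (EuclideanSpace.single j 1, 0)).1 i, fun i j => rfl⟩
  obtain ⟨B, hB⟩ : ∃ B : Matrix (Fin d) (Fin d) ℝ, ∀ i j, B i j = (fderiv ℝ f p (0, EuclideanSpace.single j 1)).1 i := ⟨Matrix.of fun i j => (fderiv ℝ f p (0, EuclideanSpace.single j 1)).1 i, fun i j => rfl⟩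
  have h1 := YDB_mat A B (YDB_symp (fderiv ℝ f p) hf A B hA hB)
  have h2 : ((ContinuousLinearMap.fst ℝ (V d) (V d)).comp ((fderiv ℝ f p).comp (ContinuousLinearMap.inr ℝ (V d) (V d)))).det = B.det := by
    rw [ContinuousLinearMap.det, ← LinearMap.det_toMatrix (EuclideanSpace.basisFun (Fin d) ℝ).toBasis]
    congr 1
    ext i j
    rw [LinearMap.toMatrix_apply, hB]
    simp
  have h3 : Yf f p 1 (Complex.I • 1) = A.map ((↑) : ℝ → ℂ) + Complex.I • B.map ((↑) : ℝ → ℂ) := by
    unfold Yf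
    rw [Matrix.mul_one, Matrix.mul_smul, Matrix.mul_one]
    congr 1
    · ext i j
      rw [Matrix.map_apply, hA]
      rfl
    · congr 1
      ext i j
      rw [Matrix.map_apply, hB]
      rfl
  rw [h2, h3]
  exact h1

end Pool.Agent.VD
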