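import Pool.Agent.helper55.VD.SpecE3

/-!
# Row vd:EE1 (MP_07c750_an, project VD, block E): `Hop` of the eigenfunction
-/

set_option autoImplicit false

open scoped ContDiff Topology InnerProductSpace ComplexConjugate ENNReal
open MeasureTheory Filter Set

namespace Pool.Agent.VD

open Pool.Agent.VQ (CH KZ PS perZ cmZ)
open Pool.Agent.RPQ (IsOp)

theorem EE1_root {c R : ℝ} (n : ℕ) (hn : n ≠ 0) (hc : 0 < c) (h : c ^ n ≤ R) : c ≤ R ^ (1 / (n : ℝ)) := by
  have h1 : c = (c ^ n) ^ (1 / (n : ℝ)) := by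
    rw [one_div, Real.pow_rpow_inv_natCast hc.le hn]
  rw [h1]
  exact Real.rpow_le_rpow (by positivity) h (by positivity)

/-- the main estimate for the factor -/
theorem EE1_main {R μ x f : ℝ} (hR : 2 ≤ R) (hμ : 0 < μ) (hμ1 : |Real.sqrt μ - R| ≤ R ^ (-(1 / 100) : ℝ))
    (hf : |f| ≤ R ^ (1 / 100 : ℝ) / R) (hx : |x - f| ≤ R ^ (-3 : ℝ)) :
    |μ / R ^ 2 * Real.exp x - 1 - f| ≤ 14 * (R ^ (-(1 / 100) : ℝ) / R) := by
  have hR0 : 0 < R := by linarith
  have hR1 : 1 ≤ R := by linarith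
  set η : ℝ := R ^ (-(1 / 100) : ℝ) with hη
  have hη0 : 0 < η := Real.rpow_pos_of_pos hR0 _
  have hη1 : η ≤ 1 := Real.rpow_le_one_of_one_le_of_nonpos hR1 (by norm_num)
  have e1 : η / R = R ^ (-(101 / 100) : ℝ) := by
    rw [hη, ← Real.rpow_sub_one hR0.ne']
    congr 1
    norm_num
  have e2 : R ^ (1 / 100 : ℝ) / R = R ^ (-(99 / 100) : ℝ) := by
    rw [← Real.rpow_sub_one hR0.ne']
    congr 1
    norm_num
  set a : ℝ := R ^ (-(99 / 100) : ℝ) with ha
  have ha0 : 0 < a := Real.rpow_pos_of_pos hR0 _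
  have hb : R ^ (-3 : ℝ) ≤ R ^ (-(101 / 100) : ℝ) := Real.rpow_le_rpow_of_exponent_le hR1 (by norm_num)
  have hba : R ^ (-3 : ℝ) ≤ a := Real.rpow_le_rpow_of_exponent_le hR1 (by norm_num)
  have haa : a * a ≤ R ^ (-(101 / 100) : ℝ) := by
    rw [ha, ← Real.rpow_add hR0]
    exact Real.rpow_le_rpow_of_exponent_le hR1 (by norm_num)
  have hxa : |x| ≤ 2 * a := by
    have h1 : |x| ≤ |x - f| + |f| := by
      have h2 : x = (x - f) + f := by ring
      calc |x| = |(x - f) + f| := by rw [← h2]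
        _ ≤ |x - f| + |f| := abs_add_le _ _
    rw [e2] at hf
    linarith
  have hb8 : R ^ (-3 : ℝ) ≤ 1 / 8 := by
    have h1 : R ^ (-3 : ℝ) = (R ^ 3)⁻¹ := by
      rw [Real.rpow_neg hR0.le]
      norm_num
    rw [h1, inv_eq_one_div]
    apply one_div_le_one_div_of_le (by norm_num)
    nlinarith [pow_le_pow_left₀ (by norm_num : (0 : ℝ) ≤ 2) hR 3]
  have ha1 : a ≤ 3 / 4 := by
    have h1 : a ≤ (2 : ℝ) ^ (-(99 / 100) : ℝ) := Real.rpow_le_rpow_of_nonpos (by norm_num) hR (by norm_num)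
    have h2 : (2 : ℝ) ^ (-(99 / 100) : ℝ) ≤ (2 : ℝ) ^ (-(1 / 2) : ℝ) :=
      Real.rpow_le_rpow_of_exponent_le (by norm_num) (by norm_num)
    have h3 : (2 : ℝ) ^ (-(1 / 2) : ℝ) ≤ 3 / 4 := by
      rw [Real.rpow_neg (by norm_num), ← Real.sqrt_eq_rpow]
      have h4 : (4 : ℝ) / 3 ≤ Real.sqrt 2 := Real.le_sqrt_of_sq_le (by norm_num)
      rw [inv_le_comm₀ (by positivity) (by norm_num)]
      norm_num at h4 ⊢
      exact h4
    linarith
  have hx1 : |x| ≤ 1 := by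
    have h1 : |x| ≤ |x - f| + |f| := by
      have h2 : x = (x - f) + f := by ring
      calc |x| = |(x - f) + f| := by rw [← h2]
        _ ≤ |x - f| + |f| := abs_add_le _ _
    rw [e2] at hf
    linarith
  have hexp : |Real.exp x - 1 - x| ≤ x ^ 2 := Real.abs_exp_sub_one_sub_id_le hx1
  have hx2 : x ^ 2 ≤ 4 * (a * a) := by
    have h1 : x ^ 2 = |x| ^ 2 := (sq_abs x).symm
    rw [h1]
    nlinarith [abs_nonneg x]
  have he3 : Real.exp x ≤ 3 := by
    have h1 := (abs_le.1 hexp).2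
    have h2 := (abs_le.1 hx1).2
    have h3 : x ^ 2 ≤ 1 := by
      rw [← sq_abs]
      nlinarith [abs_nonneg x]
    linarith
  have hmu : |μ / R ^ 2 - 1| ≤ 3 * (η / R) := by
    have h1 : μ = Real.sqrt μ ^ 2 := (Real.sq_sqrt hμ.le).symm
    have h2 : μ / R ^ 2 - 1 = (Real.sqrt μ - R) * ((Real.sqrt μ + R) / R ^ 2) := by
      nth_rewrite 1 [h1]
      field_simp
      ring
    have h3 : 0 ≤ Real.sqrt μ := Real.sqrt_nonneg μ
    have h4 : Real.sqrt μ ≤ R + 1 := by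
      have := (abs_le.1 hμ1).2
      linarith
    rw [h2, abs_mul, abs_of_nonneg (by positivity : 0 ≤ (Real.sqrt μ + R) / R ^ 2)]
    have h5 : (Real.sqrt μ + R) / R ^ 2 ≤ 3 / R := by
      rw [div_le_div_iff₀ (by positivity) hR0]
      nlinarith
    calc |Real.sqrt μ - R| * ((Real.sqrt μ + R) / R ^ 2) ≤ η * (3 / R) :=
          mul_le_mul hμ1 h5 (by positivity) hη0.le
      _ = 3 * (η / R) := by ring
  have hsplit : μ / R ^ 2 * Real.exp x - 1 - f = (Real.exp x - 1 - x) + (x - f) + (μ / R ^ 2 - 1) * Real.exp x := by ring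
  rw [hsplit]
  have h6 : |(μ / R ^ 2 - 1) * Real.exp x| ≤ 3 * (η / R) * 3 := by
    rw [abs_mul, abs_of_pos (Real.exp_pos x)]
    exact mul_le_mul hmu he3 (Real.exp_pos x).le (by positivity)
  have h7 := abs_add_le ((Real.exp x - 1 - x) + (x - f)) ((μ / R ^ 2 - 1) * Real.exp x)
  have h8 := abs_add_le (Real.exp x - 1 - x) (x - f)
  rw [← e1] at hb haa
  linarith

/-- the derivatives of `exp (c f)` -/
theorem EE1_exp {d : ℕ} (c : ℝ) (f : V d → ℝ) (hf : ContDiff ℝ ∞ f) (x : V d) (b0 D : ℝ) (h0 : |f x| ≤ b0) (hD : 1 ≤ D)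
    (h1 : ∀ i, 1 ≤ i → i ≤ 2 → |c| * ‖iteratedFDeriv ℝ i f x‖ ≤ D) (n : ℕ) (hn : n ≤ 2) :
    ‖iteratedFDeriv ℝ n (fun y => ((Real.exp (c * f y) : ℝ) : ℂ)) x‖ ≤ 2 * Real.exp (|c| * b0) * D ^ 2 := by
  have e1 : (fun y => ((Real.exp (c * f y) : ℝ) : ℂ)) = Complex.ofRealLI ∘ (Real.exp ∘ fun y => c * f y) := rfl
  have hcf : ContDiff ℝ ∞ (fun y => c * f y) := contDiff_const.mul hf
  have hcomp : ContDiff ℝ ∞ (Real.exp ∘ fun y => c * f y) := Real.contDiff_exp.comp hcf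
  rw [e1, LinearIsometry.norm_iteratedFDeriv_comp_left _ (hcomp.contDiffAt (x := x)) (i := n) (by exact_mod_cast le_top)]
  have e2 := norm_iteratedFDeriv_comp_le (g := Real.exp) (f := fun y => c * f y) (n := n) (N := ∞) Real.contDiff_exp hcf (by exact_mod_cast le_top) x (C := Real.exp (|c| * b0)) (D := D)
    (by
      intro i _
      rw [norm_iteratedFDeriv_eq_norm_iteratedDeriv, iteratedDeriv_eq_iterate, Real.iter_deriv_exp, Real.norm_eq_abs, abs_of_pos (Real.exp_pos _)]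
      apply Real.exp_le_exp.2
      calc c * f x ≤ |c * f x| := le_abs_self _
        _ = |c| * |f x| := abs_mul _ _
        _ ≤ |c| * b0 := mul_le_mul_of_nonneg_left h0 (abs_nonneg _))
    (by
      intro i hi1 hi2
      have e3 : iteratedFDeriv ℝ i (fun y => c * f y) x = c • iteratedFDeriv ℝ i f x :=
        iteratedFDeriv_const_smul_apply (a := c) ((hf.of_le (by exact_mod_cast le_top)).contDiffAt)
      rw [e3, norm_smul, Real.norm_eq_abs]
      refine (h1 i hi1 (hi2.trans hn)).trans ?_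
      calc D = D ^ 1 := (pow_one D).symm
        _ ≤ D ^ i := pow_le_pow_right₀ hD hi1)
  refine e2.trans ?_
  have e4 : (n.factorial : ℝ) ≤ 2 := by
    have : n.factorial ≤ 2 := by
      calc n.factorial ≤ Nat.factorial 2 := Nat.factorial_le hn
        _ = 2 := rfl
    exact_mod_cast this
  have e5 : D ^ n ≤ D ^ 2 := pow_le_pow_right₀ hD hn
  have e6 : 0 < Real.exp (|c| * b0) := Real.exp_pos _
  have e7 : 0 ≤ D ^ n := by positivity
  calc (n.factorial : ℝ) * Real.exp (|c| * b0) * D ^ n ≤ 2 * Real.exp (|c| * b0) * D ^ n := by gcongr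
    _ ≤ 2 * Real.exp (|c| * b0) * D ^ 2 := by gcongr

theorem EE1_proof (hEHL : EHL_stmt) (hEHC : EHC_stmt) (hEHI : EHI_stmt) (hEHB : EHB_stmt) : EE1_stmt := by
  intro d Γ _ _ K k B hK
  obtain ⟨m, hm⟩ : ∃ m : ℕ, ∀ x ∈ K, ‖x‖ ≤ m := by
    obtain ⟨r, hr⟩ := hK.compact.isBounded.exists_norm_le
    obtain ⟨m, hm⟩ := exists_nat_ge r
    exact ⟨m, fun x hx => (hr x hx).trans hm⟩
  obtain ⟨c, hc⟩ : ∃ c : ℝ, c = ((d : ℝ) - 2) / 4 := ⟨_, rfl⟩
  obtain ⟨C1, hC1, P1⟩ := hEHB d (max (B m 0) (B m 1))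
  obtain ⟨D, hD⟩ : ∃ D : ℝ, D = 1 + |c| * (|B m 1| + |B m 2|) := ⟨_, rfl⟩
  have hD1 : 1 ≤ D := by
    rw [hD]
    have : 0 ≤ |c| * (|B m 1| + |B m 2|) := by positivity
    linarith
  obtain ⟨E0, hE0⟩ : ∃ E0 : ℝ, E0 = Real.exp (|c| * |B m 0|) := ⟨_, rfl⟩
  have hE0p : 0 < E0 := by
    rw [hE0]
    exact Real.exp_pos _
  obtain ⟨b', hb'⟩ : ∃ b' : ℝ, b' = 2 * E0 * D ^ 2 := ⟨_, rfl⟩
  have hb'0 : 0 ≤ b' := by
    rw [hb']
    positivity
  obtain ⟨Cv, hCv⟩ : ∃ Cv : ℝ, Cv = C1 * b' * E0 := ⟨_, rfl⟩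
  have hCv0 : 0 ≤ Cv := by
    rw [hCv]
    have : 0 ≤ C1 := by linarith
    positivity
  obtain ⟨C7, hC7⟩ : ∃ C7 : ℝ, C7 = 7 + Cv := ⟨_, rfl⟩
  have hC70 : 0 < C7 := by
    rw [hC7]
    linarith
  refine ⟨max 2 (C7 ^ 10100), le_max_left _ _, ?_⟩
  intro F G R f f' μ φ hR hF hG hE
  have hR2 : 2 ≤ R := (le_max_left _ _).trans hR
  have hRb : C7 ^ 10100 ≤ R := (le_max_right _ _).trans hR
  have hR8 : C7 ≤ R ^ (1 / ((10100 : ℕ) : ℝ)) := EE1_root 10100 (by norm_num) hC70 hRb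
  clear hRb
  have hR0 : 0 < R := by linarith
  have hR1 : 1 ≤ R := by linarith
  obtain ⟨hφ2, hφi, hφe⟩ := hE.eig
  obtain ⟨w, hw⟩ : ∃ w : V d → ℂ, w = fun y => ((Real.exp (((d : ℝ) - 2) / 4 * f' y) : ℝ) : ℂ) := ⟨_, rfl⟩
  have hw' : ∀ y, w y = ((Real.exp (c * f' y) : ℝ) : ℂ) := by
    intro y
    rw [hw, hc]
  have hwfun : w = fun y => ((Real.exp (c * f' y) : ℝ) : ℂ) := funext hw'
  have hws : ContDiff ℝ ∞ w := by
    rw [hwfun]
    exact Complex.ofRealCLM.contDiff.comp (Real.contDiff_exp.comp (contDiff_const.mul hE.smooth))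
  have hw2 : ContDiff ℝ 2 w := contDiff_infty.1 hws 2
  have hwi : ∀ (γ : Γ) (y : V d), w (γ • y) = w y := by
    intro γ y
    rw [hw', hw', hE.inv γ y]
  obtain ⟨hlc, hlconj, hlsm⟩ := (hEHC d G hG.met).1 w hw2
  have hreal : ∀ x, lap G w x = (((lap G w x).re : ℝ) : ℂ) := by
    intro x
    have h1 := hlconj x
    have h2 : (fun y => conj (w y)) = w := by
      funext y
      rw [hw', Complex.conj_ofReal]
    rw [h2] at h1
    exact (Complex.conj_eq_iff_re.1 h1.symm).symm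
  have hlinv : ∀ (γ : Γ) (x : V d), lap G w (γ • x) = lap G w x := by
    intro γ x
    have h1 := hEHI d Γ G w hG.met hK.smooth hG.isom hw2 γ x
    have h2 : (fun y => w (γ • y)) = w := funext fun y => hwi γ y
    rw [h2] at h1
    exact h1.symm
  obtain ⟨V1, hV1⟩ : ∃ V1 : V d → ℝ, V1 = fun x => (lap G w x).re / Real.exp (c * f' x) := ⟨_, rfl⟩
  have hV1' : ∀ x, V1 x = (lap G w x).re / Real.exp (c * f' x) := fun x => by rw [hV1]
  have hlV : ∀ x, lap G w x = ((V1 x * Real.exp (c * f' x) : ℝ) : ℂ) := by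
    intro x
    rw [hV1', div_mul_cancel₀ _ (Real.exp_pos _).ne']
    exact hreal x
  have hVinv : ∀ (γ : Γ) (x : V d), V1 (γ • x) = V1 x := by
    intro γ x
    rw [hV1', hV1', hlinv, hE.inv γ x]
  have hVK : ∀ x ∈ K, |V1 x| ≤ Cv := by
    intro x hx
    have hxm := hm x hx
    have hf0 : |f' x| ≤ |B m 0| := by
      have h1 := hE.der m 0 x (by norm_num) hxm
      rw [norm_iteratedFDeriv_zero, Real.norm_eq_abs] at h1
      exact h1.trans (le_abs_self _)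
    have hder : ∀ n ≤ 2, ‖iteratedFDeriv ℝ n w x‖ ≤ b' := by
      intro n hn
      rw [hwfun, hb', hE0]
      refine EE1_exp c f' hE.smooth x |B m 0| D hf0 hD1 ?_ n hn
      intro i hi1 hi2
      have h1 := hE.der m i x hi2 hxm
      have h2 : |c| * ‖iteratedFDeriv ℝ i f' x‖ ≤ |c| * (|B m 1| + |B m 2|) := by
        apply mul_le_mul_of_nonneg_left _ (abs_nonneg _)
        have h3 : B m i ≤ |B m 1| + |B m 2| := by
          have h4 := le_abs_self (B m 1)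
          have h5 := le_abs_self (B m 2)
          have h6 := abs_nonneg (B m 1)
          have h7 := abs_nonneg (B m 2)
          have h8 : i = 1 ∨ i = 2 := by omega
          rcases h8 with rfl | rfl
          · linarith
          · linarith
        exact h1.trans h3
      rw [hD]
      linarith
    have h1 : ‖lap G w x‖ ≤ C1 * b' := by
      refine P1 G w x b' hG.met hw2 ?_ ?_ ?_ ?_ ?_
      · intro u
        have h2 := hG.lo m x u hxm
        have h3 : 0 ≤ ⟪G x u, u⟫_ℝ := by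
          rcases eq_or_ne u 0 with rfl | hu
          · simp
          · exact (hG.met.pos x u hu).le
        exact h2.trans (mul_le_mul_of_nonneg_right (le_max_left _ _) h3)
      · have h2 := hG.bd m 0 x hxm
        rw [norm_iteratedFDeriv_zero] at h2
        exact h2.trans (le_max_left _ _)
      · have h2 := hG.bd m 1 x hxm
        rw [norm_iteratedFDeriv_one] at h2
        exact h2.trans (le_max_right _ _)
      · have h2 := hder 1 (by norm_num)
        rwa [norm_iteratedFDeriv_one] at h2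
      · exact hder 2 le_rfl
    have h2 : |(lap G w x).re| ≤ C1 * b' := (Complex.abs_re_le_norm _).trans h1
    rw [hV1', abs_div, abs_of_pos (Real.exp_pos _), div_le_iff₀ (Real.exp_pos _), hCv]
    have h3 : 1 ≤ E0 * Real.exp (c * f' x) := by
      rw [hE0, ← Real.exp_add]
      apply Real.one_le_exp
      have h4 : |c * f' x| ≤ |c| * |B m 0| := by
        rw [abs_mul]
        exact mul_le_mul_of_nonneg_left hf0 (abs_nonneg _)
      have h5 := neg_abs_le (c * f' x)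
      linarith
    have h4 : 0 ≤ C1 * b' := by
      have : 0 ≤ C1 := by linarith
      positivity
    calc |(lap G w x).re| ≤ C1 * b' * 1 := by rw [mul_one]; exact h2
      _ ≤ C1 * b' * (E0 * Real.exp (c * f' x)) := mul_le_mul_of_nonneg_left h3 h4
      _ = C1 * b' * E0 * Real.exp (c * f' x) := by ring
  have hVb : ∀ x, |V1 x| ≤ Cv := by
    intro x
    obtain ⟨γ, hγ⟩ := hK.cover x
    rw [← hVinv γ x]
    exact hVK _ hγ
  -- the function
  have hu : ∀ z, uE f' φ z = ((Real.exp (c * f' z) : ℝ) : ℂ) * φ z := by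
    intro z
    unfold uE
    rw [hc]
  have hufun : uE f' φ = fun z => w z * φ z := by
    funext z
    rw [hu, hw']
  have hu2 : ContDiff ℝ 2 (uE f' φ) := by
    rw [hufun]
    exact hw2.mul hφ2
  have huinv : ∀ (γ : Γ) (z : V d), uE f' φ (γ • z) = uE f' φ z := by
    intro γ z
    rw [hu, hu, hE.inv γ z, hφi γ z]
  have hfac : ∀ z, Hop G R (uE f' φ) z = (((2 * R)⁻¹ * (μ * Real.exp (f' z) - V1 z - R ^ 2) : ℝ) : ℂ) * uE f' φ z := by
    intro z
    have h1 := hEHL d G f' φ hG.met hE.smooth hφ2 z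
    rw [← hw, hlV z, ← hc] at h1
    have h2 : lap (fun y => Real.exp (f' y) • G y) φ z = -((μ : ℂ) * φ z) := eq_neg_of_add_eq_zero_left (hφe z)
    rw [h2] at h1
    have h3 : lap G (uE f' φ) z = ((Real.exp (c * f' z + f' z) : ℝ) : ℂ) * -((μ : ℂ) * φ z) + φ z * ((V1 z * Real.exp (c * f' z) : ℝ) : ℂ) := by
      rw [← h1]
      have h4 : uE f' φ = fun y => ((Real.exp (c * f' y) : ℝ) : ℂ) * φ y := funext hu
      rw [h4]
    unfold Hop
    rw [h3, hu, Real.exp_add]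
    push_cast
    ring
  have hkey : ∀ z, |(2 * R)⁻¹ * (μ * Real.exp (f' z) - V1 z - R ^ 2) - R / 2 * f z| ≤ R ^ (-(1 / 101) : ℝ) := by
    intro z
    have h1 := EE1_main (x := f' z) hR2 hE.mu0 hE.mu1 (hE.sm.bd z) (hE.near z)
    have h4 : (2 * R)⁻¹ * (μ * Real.exp (f' z) - V1 z - R ^ 2) - R / 2 * f z =
        (R / 2) * (μ / R ^ 2 * Real.exp (f' z) - 1 - f z) - V1 z * (2 * R)⁻¹ := by
      field_simp
      ring
    have h5 : |(R / 2) * (μ / R ^ 2 * Real.exp (f' z) - 1 - f z)| ≤ 7 * R ^ (-(1 / 100) : ℝ) := by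
      rw [abs_mul, abs_of_pos (by positivity : 0 < R / 2)]
      calc R / 2 * |μ / R ^ 2 * Real.exp (f' z) - 1 - f z| ≤ R / 2 * (14 * (R ^ (-(1 / 100) : ℝ) / R)) :=
            mul_le_mul_of_nonneg_left h1 (by positivity)
        _ = 7 * R ^ (-(1 / 100) : ℝ) := by
            field_simp
            ring
    have h6 : |V1 z * (2 * R)⁻¹| ≤ Cv * R ^ (-(1 / 100) : ℝ) := by
      rw [abs_mul, abs_of_pos (by positivity : 0 < (2 * R)⁻¹)]
      refine mul_le_mul (hVb z) ?_ (by positivity) hCv0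
      calc (2 * R)⁻¹ ≤ R⁻¹ := by
            apply inv_anti₀ hR0
            linarith
        _ = R ^ (-1 : ℝ) := (Real.rpow_neg_one R).symm
        _ ≤ R ^ (-(1 / 100) : ℝ) := Real.rpow_le_rpow_of_exponent_le hR1 (by norm_num)
    rw [h4]
    have h7 := abs_sub ((R / 2) * (μ / R ^ 2 * Real.exp (f' z) - 1 - f z)) (V1 z * (2 * R)⁻¹)
    have h8 : 7 + Cv ≤ R ^ (1 / ((10100 : ℕ) : ℝ)) := by
      rw [← hC7]
      exact hR8
    have h9 : R ^ (-(1 / 101) : ℝ) = R ^ (1 / ((10100 : ℕ) : ℝ)) * R ^ (-(1 / 100) : ℝ) := by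
      rw [← Real.rpow_add hR0]
      congr 1
      norm_num
    rw [h9]
    have h10 : (7 + Cv) * R ^ (-(1 / 100) : ℝ) ≤ R ^ (1 / ((10100 : ℕ) : ℝ)) * R ^ (-(1 / 100) : ℝ) :=
      mul_le_mul_of_nonneg_right h8 (Real.rpow_nonneg hR0.le _)
    linarith
  have hdiff : ∀ z, ‖Hop G R (uE f' φ) z - ((R / 2 * f z : ℝ) : ℂ) * uE f' φ z‖ ≤ R ^ (-(1 / 101) : ℝ) * ‖uE f' φ z‖ := by
    intro z
    rw [hfac z, ← sub_mul, ← Complex.ofReal_sub, norm_mul, Complex.norm_real, Real.norm_eq_abs]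
    exact mul_le_mul_of_nonneg_right (hkey z) (norm_nonneg _)
  obtain ⟨bF, hbF⟩ := hF.bdd
  refine ⟨hE.sm, ⟨hu2.continuous, fun γ _ z => huinv γ z, bF, fun z hz _ => hbF z hz⟩, hu2, ⟨?_, ?_, bF, fun z hz _ => hbF z hz⟩, hdiff, ?_⟩
  · have h1 := ((hEHC d G hG.met).1 (uE f' φ) hu2).1
    unfold Hop
    exact continuous_const.mul (h1.neg.sub (continuous_const.mul hu2.continuous))
  · intro γ _ z
    rw [hfac, hfac, hE.inv γ z, hVinv γ z, huinv γ z]
  · intro z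
    have h1 := hdiff z
    have h2 : ‖((R / 2 * f z : ℝ) : ℂ) * uE f' φ z‖ ≤ R ^ (1 / 100 : ℝ) * ‖uE f' φ z‖ := by
      rw [norm_mul, Complex.norm_real, Real.norm_eq_abs]
      refine mul_le_mul_of_nonneg_right ?_ (norm_nonneg _)
      rw [abs_mul, abs_of_pos (by positivity : 0 < R / 2)]
      calc R / 2 * |f z| ≤ R / 2 * (R ^ (1 / 100 : ℝ) / R) := mul_le_mul_of_nonneg_left (hE.sm.bd z) (by positivity)
        _ = R ^ (1 / 100 : ℝ) / 2 := by field_simp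
        _ ≤ R ^ (1 / 100 : ℝ) := by
            have : 0 ≤ R ^ (1 / 100 : ℝ) := Real.rpow_nonneg hR0.le _
            linarith
    have h4 : ‖Hop G R (uE f' φ) z‖ ≤ ‖Hop G R (uE f' φ) z - ((R / 2 * f z : ℝ) : ℂ) * uE f' φ z‖ + ‖((R / 2 * f z : ℝ) : ℂ) * uE f' φ z‖ := by
      have h5 : Hop G R (uE f' φ) z = (Hop G R (uE f' φ) z - ((R / 2 * f z : ℝ) : ℂ) * uE f' φ z) + ((R / 2 * f z : ℝ) : ℂ) * uE f' φ z := by ring
      calc ‖Hop G R (uE f' φ) z‖ = ‖(Hop G R (uE f' φ) z - ((R / 2 * f z : ℝ) : ℂ) * uE f' φ z) + ((R / 2 * f z : ℝ) : ℂ) * uE f' φ z‖ := by rw [← h5]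
        _ ≤ _ := norm_add_le _ _
    have h7 : R ^ (-(1 / 101) : ℝ) ≤ 1 := Real.rpow_le_one_of_one_le_of_nonpos hR1 (by norm_num)
    have h8 : 1 ≤ R ^ (1 / 100 : ℝ) := Real.one_le_rpow hR1 (by norm_num)
    calc ‖Hop G R (uE f' φ) z‖ ≤ R ^ (-(1 / 101) : ℝ) * ‖uE f' φ z‖ + R ^ (1 / 100 : ℝ) * ‖uE f' φ z‖ := by linarith
      _ = (R ^ (-(1 / 101) : ℝ) + R ^ (1 / 100 : ℝ)) * ‖uE f' φ z‖ := by ring
      _ ≤ 2 * R ^ (1 / 100 : ℝ) * ‖uE f' φ z‖ := mul_le_mul_of_nonneg_right (by linarith) (norm_nonneg _)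

end Pool.Agent.VD
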